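import Pool.Agent.Lib.MP_7fdaab_ag.Heis.Sharp
import Mathlib.LinearAlgebra.Dual.Lemmas
import Mathlib.Analysis.Complex.Polynomial.Basic
import Mathlib.LinearAlgebra.Complex.FiniteDimensional

/-!
Systems which are symmetric under all permutations of the coordinates: general lemmas.
-/

namespace Pool.Agent.Lib.MP_7fdaab_ag.Perm

open Pool.Agent.Lib.MP_7fdaab_ag.Heis

/-- the coordinates are permuted: `z_i` becomes `z_(σ i)` -/
def permute {ι : Type} (σ : Equiv.Perm ι) (z : ι → ℂ) : ι → ℂ := fun i => z (σ i)

/-- the real span is stable under all permutations of the coordinates -/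
def PermInvariant {ι : Type} {r : ℕ} (φ : Fin r → QuadraticForm ℂ (ι → ℂ)) : Prop :=
  ∀ σ : Equiv.Perm ι, SpanInvariant φ (permute σ)

/-- some permutation carries a list without repetitions to another one -/
theorem perm_of_lists {α : Type} [DecidableEq α] : ∀ l l' : List α, l.Nodup → l'.Nodup →
    l.length = l'.length → ∃ σ : Equiv.Perm α, l.map σ = l' := by
  intro l
  induction l with
  | nil =>
    intro l' _ _ h
    refine ⟨1, ?_⟩
    rw [List.length_nil] at h
    rw [List.map_nil, List.length_eq_zero_iff.mp h.symm]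
  | cons a l ih =>
    intro l' h1 h2 h3
    cases l' with
    | nil => simp at h3
    | cons a' l' =>
      rw [List.nodup_cons] at h1 h2
      obtain ⟨σ, hσ⟩ := ih l' h1.2 h2.2 (by simpa using h3)
      refine ⟨Equiv.swap (σ a) a' * σ, ?_⟩
      rw [List.map_cons]
      congr 1
      · simp
      · rw [← hσ]
        apply List.map_congr_left
        intro x hx
        have hx' : σ x ∈ l' := by rw [← hσ]; exact List.mem_map_of_mem hx
        rw [Equiv.Perm.mul_apply]
        apply Equiv.swap_apply_of_ne_of_ne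
        · intro h
          exact h1.1 (by rw [← σ.injective h]; exact hx)
        · intro h
          exact h2.1 (by rw [← h]; exact hx')

/-- a proper real subspace of `ℂ` lies in a real line through `0` -/
theorem line_of_ne_top (W : Submodule ℝ ℂ) (hW : W ≠ ⊤) :
    ∃ c : ℂ, c ≠ 0 ∧ ∀ w ∈ W, (c * w).im = 0 := by
  obtain ⟨f, hf, hW⟩ := Submodule.exists_le_ker_of_lt_top W (lt_top_iff_ne_top.mpr hW)
  refine ⟨⟨f Complex.I, f 1⟩, ?_, ?_⟩
  · intro h
    apply hf
    have h1 : f Complex.I = 0 := congrArg Complex.re h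
    have h2 : f 1 = 0 := congrArg Complex.im h
    apply LinearMap.ext
    intro w
    have h3 : w = w.re • (1 : ℂ) + w.im • Complex.I := by
      apply Complex.ext <;> simp
    rw [h3, map_add, map_smul, map_smul, h1, h2]
    simp
  · intro w hw
    have h0 : f w = 0 := hW hw
    have h1 : w = w.re • (1 : ℂ) + w.im • Complex.I := by
      apply Complex.ext <;> simp
    rw [h1, map_add, map_smul, map_smul, smul_eq_mul, smul_eq_mul] at h0
    rw [Complex.mul_im]
    show f Complex.I * w.im + f 1 * w.re = 0
    linarith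

/-- if all functions of the span take at `x` values in a real line, there is a nonzero vector with
only real values -/
theorem real_vector {ι : Type} {r : ℕ} (φ : Fin r → QuadraticForm ℂ (ι → ℂ)) (hno : NoRealValue φ)
    (x : ι → ℂ) (hx : x ≠ 0) (c : ℂ) (hc : c ≠ 0) (h : ∀ f ∈ spanR φ, (c * f x).im = 0) : False := by
  obtain ⟨β, hβ⟩ := IsAlgClosed.exists_pow_nat_eq c (n := 2) (by norm_num)
  have hβ0 : β ≠ 0 := by
    rintro rfl
    apply hc
    rw [← hβ]; simp
  obtain ⟨j, hj⟩ := hno (β • x) (smul_ne_zero hβ0 hx)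
  apply hj
  have hm : fn φ j ∈ spanR φ := Submodule.subset_span ⟨j, rfl⟩
  have h1 := hom_two φ (fn φ j) hm β x
  have h2 := h _ hm
  have h3 : φ j (β • x) = fn φ j (β • x) := rfl
  rw [h3, h1, ← sq, hβ]
  exact h2

/-- the real span has dimension at most `r` -/
theorem finrank_le {ι : Type} {r : ℕ} (φ : Fin r → QuadraticForm ℂ (ι → ℂ)) :
    Module.finrank ℝ (spanR φ) ≤ r := by
  have h := finrank_range_le_card (R := ℝ) (fn φ)
  rw [Fintype.card_fin] at h
  exact h

instance {ι : Type} {r : ℕ} (φ : Fin r → QuadraticForm ℂ (ι → ℂ)) :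
    FiniteDimensional ℝ (spanR φ) :=
  FiniteDimensional.span_of_finite ℝ (Set.finite_range _)

/-- the unit vector -/
def e {m : ℕ} (i : Fin m) : Fin m → ℂ := Pi.single i 1

theorem permute_e {m : ℕ} (σ : Equiv.Perm (Fin m)) (i : Fin m) :
    permute σ⁻¹ (e i) = e (σ i) := by
  funext k
  unfold permute e
  rw [Pi.single_apply, Pi.single_apply]
  congr 1
  rw [eq_iff_iff]
  constructor
  · intro h; rw [← h]; simp
  · intro h; rw [h]; simp

theorem permute_sub {ι : Type} (σ : Equiv.Perm ι) (x y : ι → ℂ) :
    permute σ (x - y) = permute σ x - permute σ y := rfl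

theorem permute_add {ι : Type} (σ : Equiv.Perm ι) (x y : ι → ℂ) :
    permute σ (x + y) = permute σ x + permute σ y := rfl

end Pool.Agent.Lib.MP_7fdaab_ag.Perm
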