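import Pool.Agent.Lib.MP_7fdaab_ag.PermA

/-!
Identities for the functions of the real span.
-/

namespace Pool.Agent.Lib.MP_7fdaab_ag.Perm

open Pool.Agent.Lib.MP_7fdaab_ag.Heis

/-- an `ℝ`-linear identity which holds for the components holds on the span -/
theorem span_ind {ι : Type} {r : ℕ} (φ : Fin r → QuadraticForm ℂ (ι → ℂ))
    (L : ((ι → ℂ) → ℂ) →ₗ[ℝ] ℂ) (h : ∀ j, L (fn φ j) = 0) (f : (ι → ℂ) → ℂ) (hf : f ∈ spanR φ) :
    L f = 0 := by
  have h1 : spanR φ ≤ LinearMap.ker L := by
    unfold spanR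
    rw [Submodule.span_le]
    rintro _ ⟨j, rfl⟩
    exact h j
  exact h1 hf

/-- evaluation -/
noncomputable def ev {ι : Type} (z : ι → ℂ) : ((ι → ℂ) → ℂ) →ₗ[ℝ] ℂ where
  toFun f := f z
  map_add' _ _ := rfl
  map_smul' _ _ := rfl

theorem ev_apply {ι : Type} (z : ι → ℂ) (f : (ι → ℂ) → ℂ) : ev z f = f z := rfl

/-- the polar form -/
def pol {ι : Type} (f : (ι → ℂ) → ℂ) (x y : ι → ℂ) : ℂ := f (x + y) - f x - f y

theorem pol_form {ι : Type} (Q : QuadraticForm ℂ (ι → ℂ)) (x y : ι → ℂ) :
    pol (fun z => Q z) x y = QuadraticMap.polar Q x y := rfl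

/-- `f (a + i b) = f a - f b + i (polar)` -/
theorem f_add_I {ι : Type} {r : ℕ} (φ : Fin r → QuadraticForm ℂ (ι → ℂ))
    (f : (ι → ℂ) → ℂ) (hf : f ∈ spanR φ) (a b : ι → ℂ) :
    f (a + Complex.I • b) = f a - f b + Complex.I * pol f a b := by
  have h := span_ind φ (ev (a + Complex.I • b) - ev a + ev b -
    ((LinearMap.mul ℝ ℂ Complex.I).comp (ev (a + b) - ev a - ev b))) (by
      intro j
      simp only [LinearMap.sub_apply, LinearMap.add_apply, LinearMap.comp_apply, ev_apply, fn,
        LinearMap.mul_apply']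
      have h1 := QuadraticMap.map_add (φ j) a (Complex.I • b)
      rw [QuadraticMap.map_smul, QuadraticMap.polar_smul_right, smul_eq_mul, smul_eq_mul,
        Complex.I_mul_I] at h1
      have h2 : QuadraticMap.polar (φ j) a b = φ j (a + b) - φ j a - φ j b := rfl
      rw [h1, h2]
      ring) f hf
  simp only [LinearMap.sub_apply, LinearMap.add_apply, LinearMap.comp_apply, ev_apply,
    LinearMap.mul_apply'] at h
  unfold pol
  linear_combination h

/-- the second difference -/
theorem second_diff {ι : Type} {r : ℕ} (φ : Fin r → QuadraticForm ℂ (ι → ℂ))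
    (f : (ι → ℂ) → ℂ) (hf : f ∈ spanR φ) (z a b : ι → ℂ) (α β : ℂ) :
    f z - f (z - α • a) - f (z - β • b) + f (z - α • a - β • b) = α * β * pol f a b := by
  have h := span_ind φ (ev z - ev (z - α • a) - ev (z - β • b) + ev (z - α • a - β • b) -
    ((LinearMap.mul ℝ ℂ (α * β)).comp (ev (a + b) - ev a - ev b))) (by
      intro j
      simp only [LinearMap.sub_apply, LinearMap.add_apply, LinearMap.comp_apply, ev_apply, fn,
        LinearMap.mul_apply']
      have e1 : z - α • a = z + (-α) • a := by rw [neg_smul, sub_eq_add_neg]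
      have e2 : z - β • b = z + (-β) • b := by rw [neg_smul, sub_eq_add_neg]
      have e3 : z - α • a - β • b = (z + (-α) • a) + (-β) • b := by
        rw [neg_smul, neg_smul, sub_eq_add_neg, sub_eq_add_neg]
      have h1 := QuadraticMap.map_add (φ j) z ((-α) • a)
      have h2 := QuadraticMap.map_add (φ j) z ((-β) • b)
      have h3 := QuadraticMap.map_add (φ j) (z + (-α) • a) ((-β) • b)
      have h4 : QuadraticMap.polar (φ j) a b = φ j (a + b) - φ j a - φ j b := rfl
      rw [e3, e1, e2, h3, h2, h1]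
      rw [QuadraticMap.polar_add_left, QuadraticMap.polar_smul_left (φ j) (-α) a ((-β) • b),
        QuadraticMap.polar_smul_right (φ j) (-β) a b, h4]
      simp only [smul_eq_mul]
      ring) f hf
  simp only [LinearMap.sub_apply, LinearMap.add_apply, LinearMap.comp_apply, ev_apply,
    LinearMap.mul_apply'] at h
  unfold pol
  linear_combination h

theorem f_neg {ι : Type} {r : ℕ} (φ : Fin r → QuadraticForm ℂ (ι → ℂ))
    (f : (ι → ℂ) → ℂ) (hf : f ∈ spanR φ) (z : ι → ℂ) : f (-z) = f z := by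
  have h := hom_two φ f hf (-1) z
  rw [neg_one_smul] at h
  rw [h]; ring

/-- values at differences of unit vectors -/
def s {m : ℕ} (f : (Fin m → ℂ) → ℂ) (i j : Fin m) : ℂ := f (e i - e j)

theorem s_comm {m r : ℕ} (φ : Fin r → QuadraticForm ℂ (Fin m → ℂ))
    (f : (Fin m → ℂ) → ℂ) (hf : f ∈ spanR φ) (i j : Fin m) : s f i j = s f j i := by
  unfold s
  rw [← f_neg φ f hf (e i - e j), neg_sub]

theorem s_pull {m : ℕ} (f : (Fin m → ℂ) → ℂ) (σ : Equiv.Perm (Fin m)) (i j : Fin m) :
    s (pull (permute σ⁻¹) f) i j = s f (σ i) (σ j) := by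
  unfold s
  rw [pull_apply, permute_sub, permute_e, permute_e]

/-- the polar form at `e_i - e_j`, `e_k - e_l` in terms of `s` -/
theorem pol_s {m r : ℕ} (φ : Fin r → QuadraticForm ℂ (Fin m → ℂ))
    (f : (Fin m → ℂ) → ℂ) (hf : f ∈ spanR φ) (i j k l : Fin m) :
    pol f (e i - e j) (e k - e l) = - s f i k + s f j k + s f i l - s f j l := by
  have h := span_ind φ (ev (e i - e j + (e k - e l)) - ev (e i - e j) - ev (e k - e l)
    + ev (e i - e k) - ev (e j - e k) - ev (e i - e l) + ev (e j - e l)) (by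
      intro q
      simp only [LinearMap.sub_apply, LinearMap.add_apply, ev_apply, fn]
      have key : ∀ x y : Fin m → ℂ, φ q (x - y) = φ q x + φ q y - QuadraticMap.polar (φ q) x y := by
        intro x y
        have h1 := QuadraticMap.map_add (φ q) x (-y)
        rw [QuadraticMap.map_neg, QuadraticMap.polar_neg_right] at h1
        rw [sub_eq_add_neg, h1]; ring
      have h1 := QuadraticMap.map_add (φ q) (e i - e j) (e k - e l)
      rw [h1, QuadraticMap.polar_sub_left, QuadraticMap.polar_sub_right,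
        QuadraticMap.polar_sub_right]
      simp only [key]
      ring) f hf
  simp only [LinearMap.sub_apply, LinearMap.add_apply, ev_apply] at h
  unfold pol s
  linear_combination h

/-- the functions of the span are stable under permutations -/
theorem pull_mem {m r : ℕ} {φ : Fin r → QuadraticForm ℂ (Fin m → ℂ)} (hP : PermInvariant φ)
    (σ : Equiv.Perm (Fin m)) {f : (Fin m → ℂ) → ℂ} (hf : f ∈ spanR φ) :
    pull (permute σ) f ∈ spanR φ := span_stable φ _ (hP σ) f hf

/-- if `f ((e 0 - e 1), (e 2 - e 3))` vanishes on the span, then it does for all distinct indices -/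
theorem pol_zero {m r : ℕ} {φ : Fin r → QuadraticForm ℂ (Fin m → ℂ)} (hP : PermInvariant φ)
    {i0 j0 k0 l0 : Fin m} (hnd0 : [i0, j0, k0, l0].Nodup)
    (h0 : ∀ f ∈ spanR φ, pol f (e i0 - e j0) (e k0 - e l0) = 0)
    {f : (Fin m → ℂ) → ℂ} (hf : f ∈ spanR φ) {i j k l : Fin m} (hnd : [i, j, k, l].Nodup) :
    s f i k - s f j k = s f i l - s f j l := by
  obtain ⟨σ, hσ⟩ := perm_of_lists _ _ hnd0 hnd rfl
  simp only [List.map_cons, List.map_nil, List.cons.injEq, and_true] at hσ
  obtain ⟨h1, h2, h3, h4⟩ := hσ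
  have hg := pull_mem hP σ⁻¹ hf
  have h5 := h0 _ hg
  rw [pol_s φ _ hg] at h5
  simp only [s_pull, h1, h2, h3, h4] at h5
  linear_combination -h5

end Pool.Agent.Lib.MP_7fdaab_ag.Perm
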