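import Pool.Agent.Lib.MP_7fdaab_ag.PermB

/-!
The case in which all forms are diagonal on the hyperplane of the vectors with sum zero.
-/

namespace Pool.Agent.Lib.MP_7fdaab_ag.Perm

open Pool.Agent.Lib.MP_7fdaab_ag.Heis

theorem e_apply_self {m : ℕ} (i : Fin m) : e i i = 1 := by simp [e]

theorem e_apply_ne {m : ℕ} {i j : Fin m} (h : j ≠ i) : e i j = 0 := by simp [e, h]

/-- the vector `(1, ..., 1)` -/
def one (m : ℕ) : Fin m → ℂ := fun _ => 1

theorem one_top {m r : ℕ} (hm : 0 < m) {φ : Fin r → QuadraticForm ℂ (Fin m → ℂ)}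
    (hno : NoRealValue φ) : (spanR φ).map (ev (one m)) = ⊤ := by
  by_contra hW
  obtain ⟨c, hc, h⟩ := line_of_ne_top _ hW
  apply real_vector φ hno (one m) ?_ c hc
  · intro f hf
    exact h _ (Submodule.mem_map_of_mem hf)
  · intro h0
    have := congrFun h0 ⟨0, hm⟩
    exact one_ne_zero this

/-- the difference `g_a - g_b` takes all values -/
theorem diff_top {m r : ℕ} {φ : Fin r → QuadraticForm ℂ (Fin m → ℂ)} (hP : PermInvariant φ)
    (hno : NoRealValue φ) {i0 i1 i2 i3 : Fin m} (hnd : [i0, i1, i2, i3].Nodup)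
    (h0 : ∀ f ∈ spanR φ, pol f (e i0 - e i1) (e i2 - e i3) = 0) :
    (spanR φ).map (ev (e i0 - e i2) - ev (e i1 - e i2)) = ⊤ := by
  by_contra hW
  obtain ⟨c, hc, h⟩ := line_of_ne_top _ hW
  have hnd3 : [i0, i1, i2].Nodup := by
    simp only [List.nodup_cons, List.mem_cons, List.not_mem_nil, not_or] at hnd ⊢
    tauto
  have key : ∀ a b k : Fin m, [a, b, k].Nodup → ∀ f ∈ spanR φ, (c * (s f a k - s f b k)).im = 0 := by
    intro a b k hab f hf
    obtain ⟨σ, hσ⟩ := perm_of_lists _ _ hnd3 hab rfl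
    simp only [List.map_cons, List.map_nil, List.cons.injEq, and_true] at hσ
    obtain ⟨h1, h2, h3⟩ := hσ
    have hg := pull_mem hP σ⁻¹ hf
    have h4 := h _ (Submodule.mem_map_of_mem hg)
    rw [LinearMap.sub_apply, ev_apply, ev_apply] at h4
    have h5 := s_pull f σ i0 i2
    have h6 := s_pull f σ i1 i2
    rw [h1, h3] at h5
    rw [h2, h3] at h6
    unfold s at h5 h6 ⊢
    rw [h5, h6] at h4
    exact h4
  apply real_vector φ hno (e i0 - e i1 + Complex.I • (e i2 - e i3)) ?_ c hc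
  · intro f hf
    rw [f_add_I φ f hf, h0 f hf, mul_zero, add_zero]
    have h1 := key i0 i2 i1 (by
      simp only [List.nodup_cons, List.mem_cons, List.not_mem_nil, not_or] at hnd ⊢
      tauto) f hf
    have h2 := key i1 i3 i2 (by
      simp only [List.nodup_cons, List.mem_cons, List.not_mem_nil, not_or] at hnd ⊢
      have : ¬ i3 = i2 := fun h => hnd.2.2.1.1 h.symm
      tauto) f hf
    have h3 : f (e i0 - e i1) - f (e i2 - e i3) = (s f i0 i1 - s f i2 i1) + (s f i1 i2 - s f i3 i2) := by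
      rw [s_comm φ f hf i2 i1, s_comm φ f hf i3 i2]
      unfold s
      ring
    rw [h3, mul_add, Complex.add_im, h1, h2, add_zero]
  · intro hx
    have h1 := congrFun hx i0
    simp only [Pi.add_apply, Pi.sub_apply, Pi.smul_apply, smul_eq_mul, Pi.zero_apply] at h1
    simp only [List.nodup_cons, List.mem_cons, List.not_mem_nil, not_or] at hnd
    rw [e_apply_self, e_apply_ne hnd.1.1, e_apply_ne hnd.1.2.1, e_apply_ne hnd.1.2.2.1] at h1
    norm_num at h1

/-- `2 g_i` -/
noncomputable def tm {m : ℕ} (i b c : Fin m) : ((Fin m → ℂ) → ℂ) →ₗ[ℝ] ℂ :=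
  ev (e i - e b) + ev (e i - e c) - ev (e b - e c)

theorem tm_apply {m : ℕ} (i b c : Fin m) (f : (Fin m → ℂ) → ℂ) :
    tm i b c f = s f i b + s f i c - s f b c := rfl

theorem exists_psi {m r : ℕ} {φ : Fin r → QuadraticForm ℂ (Fin m → ℂ)} (hP : PermInvariant φ)
    (hno : NoRealValue φ) {i0 i1 i2 i3 : Fin m} (hnd : [i0, i1, i2, i3].Nodup)
    (h0 : ∀ f ∈ spanR φ, pol f (e i0 - e i1) (e i2 - e i3) = 0) (j : Fin m) (hj : j ≠ i0) (γ : ℂ) :
    ∃ ψ ∈ spanR φ, ψ (one m) = 0 ∧ ∀ i b c : Fin m, [i0, i, b, c].Nodup →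
      tm i b c ψ = if i = j then 2 * γ else 0 := by
  have hnd3 : [i0, i1, i2].Nodup := by
    simp only [List.nodup_cons, List.mem_cons, List.not_mem_nil, not_or] at hnd ⊢
    tauto
  obtain ⟨b0, hb0⟩ : ∃ b0 : Fin m, [j, i0, b0].Nodup := by
    simp only [List.nodup_cons, List.mem_cons, List.not_mem_nil, not_or] at hnd
    by_cases h : j = i1
    · refine ⟨i2, ?_⟩
      simp only [List.nodup_cons, List.mem_cons, List.not_mem_nil, not_or]
      subst h
      tauto
    · refine ⟨i1, ?_⟩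
      simp only [List.nodup_cons, List.mem_cons, List.not_mem_nil, not_or]
      tauto
  obtain ⟨f, hf, hfγ⟩ : γ ∈ (spanR φ).map (ev (e i0 - e i2) - ev (e i1 - e i2)) := by
    rw [diff_top hP hno hnd h0]; trivial
  rw [LinearMap.sub_apply, ev_apply, ev_apply] at hfγ
  obtain ⟨σ, hσ⟩ := perm_of_lists _ _ hb0 hnd3 rfl
  simp only [List.map_cons, List.map_nil, List.cons.injEq, and_true] at hσ
  obtain ⟨h1, h2, h3⟩ := hσ
  set f' := pull (permute σ⁻¹) f with hf'
  have hf'm : f' ∈ spanR φ := pull_mem hP σ⁻¹ hf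
  have hb : s f' j b0 - s f' i0 b0 = γ := by
    rw [hf', s_pull, s_pull, h1, h2, h3]
    exact hfγ
  have hgen : ∀ b : Fin m, b ≠ j → b ≠ i0 → s f' j b - s f' i0 b = γ := by
    intro b hbj hbi
    by_cases hbb : b = b0
    · rw [hbb]; exact hb
    · rw [← hb]
      apply pol_zero hP hnd h0 hf'm
      simp only [List.nodup_cons, List.mem_cons, List.not_mem_nil, not_or] at hb0 ⊢
      have e1 : ¬ j = b := fun h => hbj h.symm
      have e2 : ¬ i0 = b := fun h => hbi h.symm
      tauto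
  set τ : Equiv.Perm (Fin m) := Equiv.swap i0 j with hτ
  refine ⟨f' - pull (permute τ⁻¹) f', Submodule.sub_mem _ hf'm (pull_mem hP τ⁻¹ hf'm), ?_, ?_⟩
  · rw [Pi.sub_apply, pull_apply]
    have : permute τ⁻¹ (one m) = one m := rfl
    rw [this, sub_self]
  · intro i b c hn
    have hs : ∀ x y : Fin m, s (f' - pull (permute τ⁻¹) f') x y = s f' x y - s f' (τ x) (τ y) := by
      intro x y
      rw [← s_pull f' τ x y]
      rfl
    rw [tm_apply, hs, hs, hs]
    simp only [List.nodup_cons, List.mem_cons, List.not_mem_nil, not_or] at hn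
    obtain ⟨⟨n1, n2, n3, -⟩, ⟨n4, n5, -⟩, ⟨n6, -⟩, -⟩ := hn
    have fix : ∀ x : Fin m, x ≠ i0 → x ≠ j → τ x = x := fun x hx1 hx2 =>
      Equiv.swap_apply_of_ne_of_ne hx1 hx2
    have tj : τ j = i0 := Equiv.swap_apply_right i0 j
    by_cases hij : i = j
    · subst hij
      rw [if_pos rfl, tj, fix b (Ne.symm n2) (Ne.symm n4), fix c (Ne.symm n3) (Ne.symm n5)]
      have g1 := hgen b (Ne.symm n4) (Ne.symm n2)
      have g2 := hgen c (Ne.symm n5) (Ne.symm n3)
      linear_combination g1 + g2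
    · rw [if_neg hij, fix i (Ne.symm n1) hij]
      by_cases hbj : b = j
      · subst hbj
        rw [tj, fix c (Ne.symm n3) (Ne.symm n6)]
        have g1 := hgen i hij (Ne.symm n1)
        have g2 := hgen c (Ne.symm n6) (Ne.symm n3)
        rw [s_comm φ f' hf'm i b, s_comm φ f' hf'm i i0]
        linear_combination g1 - g2
      · rw [fix b (Ne.symm n2) hbj]
        by_cases hcj : c = j
        · subst hcj
          rw [tj]
          have g1 := hgen i hij (Ne.symm n1)
          have g2 := hgen b hbj (Ne.symm n2)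
          rw [s_comm φ f' hf'm i c, s_comm φ f' hf'm i i0, s_comm φ f' hf'm b c,
            s_comm φ f' hf'm b i0]
          linear_combination g1 - g2
        · rw [fix c (Ne.symm n3) hcj]
          ring

theorem case_one {m r : ℕ} {φ : Fin r → QuadraticForm ℂ (Fin m → ℂ)} (hP : PermInvariant φ)
    (hno : NoRealValue φ) {i0 i1 i2 i3 : Fin m} (hnd : [i0, i1, i2, i3].Nodup)
    (h0 : ∀ f ∈ spanR φ, pol f (e i0 - e i1) (e i2 - e i3) = 0) :
    2 * m ≤ Module.finrank ℝ (spanR φ) := by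
  classical
  have hm : 0 < m := i0.pos
  have hbc : ∀ i : {i : Fin m // i ≠ i0}, ∃ bc : Fin m × Fin m, [i0, i.1, bc.1, bc.2].Nodup := by
    rintro ⟨i, hi⟩
    simp only [List.nodup_cons, List.mem_cons, List.not_mem_nil, not_or] at hnd ⊢
    by_cases h1 : i = i1
    · refine ⟨(i2, i3), ?_⟩
      subst h1
      tauto
    · by_cases h2 : i = i2
      · refine ⟨(i1, i3), ?_⟩
        subst h2
        have : ¬ i = i1 := h1
        tauto
      · refine ⟨(i1, i2), ?_⟩
        have e1 : ¬ i0 = i := fun h => hi h.symm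
        tauto
  choose bc hbc using hbc
  let Ψ : ((Fin m → ℂ) → ℂ) →ₗ[ℝ] ℂ × ({i : Fin m // i ≠ i0} → ℂ) :=
    (ev (one m)).prod (LinearMap.pi fun i => tm i.1 (bc i).1 (bc i).2)
  have htop : (spanR φ).map Ψ = ⊤ := by
    rw [eq_top_iff]
    rintro ⟨w0, w'⟩ -
    obtain ⟨f0, hf0, hfw⟩ : w0 ∈ (spanR φ).map (ev (one m)) := by
      rw [one_top hm hno]; trivial
    have hψ := fun j : {i : Fin m // i ≠ i0} => exists_psi hP hno hnd h0 j.1 j.2
      ((w' j - tm j.1 (bc j).1 (bc j).2 f0) / 2)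
    choose ψ hψm hψ1 hψ2 using hψ
    refine ⟨f0 + ∑ j, ψ j, Submodule.add_mem _ hf0 (Submodule.sum_mem _ fun j _ => hψm j), ?_⟩
    apply Prod.ext
    · show ev (one m) (f0 + ∑ j, ψ j) = w0
      rw [map_add, map_sum, hfw]
      have : ∀ j, ev (one m) (ψ j) = 0 := fun j => hψ1 j
      rw [Finset.sum_congr rfl (fun j _ => this j)]
      simp
    · funext i
      show tm i.1 (bc i).1 (bc i).2 (f0 + ∑ j, ψ j) = w' i
      rw [map_add, map_sum, Finset.sum_eq_single i]
      · rw [hψ2 i i.1 _ _ (hbc i), if_pos rfl]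
        ring
      · intro j _ hji
        rw [hψ2 j i.1 _ _ (hbc i), if_neg (fun h => hji (Subtype.ext h.symm))]
      · intro h; exact absurd (Finset.mem_univ _) h
  have h1 : Module.finrank ℝ (ℂ × ({i : Fin m // i ≠ i0} → ℂ)) = 2 * m := by
    rw [Module.finrank_prod, Module.finrank_pi_fintype]
    simp only [Complex.finrank_real_complex, Finset.sum_const, Finset.card_univ, smul_eq_mul]
    rw [Fintype.card_subtype_compl, Fintype.card_fin, Fintype.card_subtype_eq]
    omega
  have h2 : Module.finrank ℝ ((spanR φ).map Ψ) = 2 * m := by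
    rw [htop, finrank_top, h1]
  rw [← h2]
  exact Submodule.finrank_map_le Ψ (spanR φ)

end Pool.Agent.Lib.MP_7fdaab_ag.Perm
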