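import Pool.Agent.Lib.MP_7fdaab_ag.PermC

/-!
The case in which the span contains `(z_0 - z_1) (z_2 - z_3)`, the examples, and the main theorem.
-/

namespace Pool.Agent.Lib.MP_7fdaab_ag.Perm

open Pool.Agent.Lib.MP_7fdaab_ag.Heis

theorem permute_swap {m : ℕ} {i j : Fin m} (hij : i ≠ j) (z : Fin m → ℂ) :
    permute (Equiv.swap i j) z = z - (z i - z j) • (e i - e j) := by
  funext k
  unfold permute
  simp only [Pi.sub_apply, Pi.smul_apply, smul_eq_mul]
  by_cases h1 : k = i
  · subst h1
    rw [Equiv.swap_apply_left, e_apply_self, e_apply_ne hij]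
    ring
  · by_cases h2 : k = j
    · subst h2
      rw [Equiv.swap_apply_right, e_apply_self, e_apply_ne (Ne.symm hij)]
      ring
    · rw [Equiv.swap_apply_of_ne_of_ne h1 h2, e_apply_ne h1, e_apply_ne h2]
      ring

/-- the product `δ (z_p - z_q) (z_k - z_l)` -/
def prd {m : ℕ} (δ : ℂ) (p q k l : Fin m) : (Fin m → ℂ) → ℂ :=
  fun z => δ * ((z p - z q) * (z k - z l))

theorem prd_mem {m r : ℕ} {φ : Fin r → QuadraticForm ℂ (Fin m → ℂ)} (hP : PermInvariant φ)
    {i0 i1 i2 i3 : Fin m} (hnd : [i0, i1, i2, i3].Nodup)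
    {f : (Fin m → ℂ) → ℂ} (hf : f ∈ spanR φ) {p q k l : Fin m} (hnd' : [p, q, k, l].Nodup) :
    prd (pol f (e i0 - e i1) (e i2 - e i3)) p q k l ∈ spanR φ := by
  set δ := pol f (e i0 - e i1) (e i2 - e i3) with hδ
  have hnd1 := hnd
  simp only [List.nodup_cons, List.mem_cons, List.not_mem_nil, not_or] at hnd1
  obtain ⟨⟨n1, n2, n3, -⟩, ⟨n4, n5, -⟩, ⟨n6, -⟩, -⟩ := hnd1
  have h1 := pull_mem hP (Equiv.swap i0 i1) hf
  have h2 := pull_mem hP (Equiv.swap i2 i3) hf
  have h3 := pull_mem hP (Equiv.swap i2 i3) h1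
  have hw : prd δ i0 i1 i2 i3 ∈ spanR φ := by
    have e1 : prd δ i0 i1 i2 i3 = f - pull (permute (Equiv.swap i0 i1)) f
        - pull (permute (Equiv.swap i2 i3)) f
        + pull (permute (Equiv.swap i2 i3)) (pull (permute (Equiv.swap i0 i1)) f) := by
      funext z
      simp only [Pi.sub_apply, Pi.add_apply, pull_apply]
      have hz : permute (Equiv.swap i0 i1) (permute (Equiv.swap i2 i3) z) =
          z - (z i0 - z i1) • (e i0 - e i1) - (z i2 - z i3) • (e i2 - e i3) := by
        rw [permute_swap n1]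
        have a0 : permute (Equiv.swap i2 i3) z i0 = z i0 := by
          unfold permute; rw [Equiv.swap_apply_of_ne_of_ne n2 n3]
        have a1 : permute (Equiv.swap i2 i3) z i1 = z i1 := by
          unfold permute; rw [Equiv.swap_apply_of_ne_of_ne n4 n5]
        rw [a0, a1, permute_swap n6]
        abel
      rw [hz, permute_swap n1, permute_swap n6]
      have := second_diff φ f hf z (e i0 - e i1) (e i2 - e i3) (z i0 - z i1) (z i2 - z i3)
      rw [this]
      unfold prd
      ring
    rw [e1]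
    exact Submodule.add_mem _ (Submodule.sub_mem _ (Submodule.sub_mem _ hf h1) h2) h3
  obtain ⟨σ, hσ⟩ := perm_of_lists _ _ hnd hnd' rfl
  simp only [List.map_cons, List.map_nil, List.cons.injEq, and_true] at hσ
  obtain ⟨s1, s2, s3, s4⟩ := hσ
  have e2 : prd δ p q k l = pull (permute σ) (prd δ i0 i1 i2 i3) := by
    funext z
    rw [pull_apply]
    unfold prd permute
    rw [s1, s2, s3, s4]
  rw [e2]
  exact pull_mem hP σ hw

/-- the pairs `i < j` -/
abbrev Pr (n : ℕ) : Type := (j : Fin n) × Fin j.val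

theorem card_pr (n : ℕ) (hn : 6 ≤ n) : 2 * n + 4 ≤ Fintype.card (Pr n) + 1 := by
  have h : Fintype.card (Pr n) = ∑ i ∈ Finset.range n, i := by
    rw [Fintype.card_sigma, ← Fin.sum_univ_eq_sum_range (fun i => i) n]
    apply Finset.sum_congr rfl
    intro j _
    exact Fintype.card_fin _
  have h2 := Finset.sum_range_id_mul_two n
  rw [← h] at h2
  obtain ⟨k, rfl⟩ : ∃ k, n = k + 6 := ⟨n - 6, by omega⟩
  have h3 : (k + 6) * (k + 6 - 1) = k * k + 11 * k + 30 := by
    have : k + 6 - 1 = k + 5 := by omega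
    rw [this]; ring
  rw [h3] at h2
  have : 0 ≤ k * k := Nat.zero_le _
  omega

theorem case_two {n r : ℕ} (hn : 6 ≤ n) {φ : Fin r → QuadraticForm ℂ (Fin (n + 2) → ℂ)}
    (hP : PermInvariant φ) {i2 i3 : Fin (n + 2)} (hnd : [0, 1, i2, i3].Nodup)
    {f : (Fin (n + 2) → ℂ) → ℂ} (hf : f ∈ spanR φ)
    (hδ : pol f (e 0 - e 1) (e i2 - e i3) ≠ 0) :
    2 * (n + 2) ≤ Module.finrank ℝ (spanR φ) := by
  classical
  set δ := pol f (e 0 - e 1) (e i2 - e i3) with hδd
  let A : Pr n → Fin (n + 2) := fun p => ⟨p.2.val + 2, by have := p.1.2; have := p.2.2; omega⟩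
  let B : Pr n → Fin (n + 2) := fun p => ⟨p.1.val + 2, by have := p.1.2; omega⟩
  have hA0 : ∀ p, (A p) ≠ 0 := fun p h => by have := congrArg Fin.val h; simp [A] at this
  have hA1 : ∀ p, (A p) ≠ 1 := fun p h => by have := congrArg Fin.val h; simp [A] at this
  have hB0 : ∀ p, (B p) ≠ 0 := fun p h => by have := congrArg Fin.val h; simp [B] at this
  have hB1 : ∀ p, (B p) ≠ 1 := fun p h => by have := congrArg Fin.val h; simp [B] at this
  have hAB : ∀ p, (A p).val < (B p).val := fun p => by have := p.2.2; simp only [A, B]; omega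
  have hinj : ∀ p q : Pr n, A p = A q → B p = B q → p = q := by
    rintro ⟨j, i⟩ ⟨j', i'⟩ h1 h2
    have h3 : j = j' := by
      have := congrArg Fin.val h2
      simp only [B] at this
      exact Fin.ext (by omega)
    subst h3
    have h4 : i = i' := by
      have := congrArg Fin.val h1
      simp only [A] at this
      exact Fin.ext (by omega)
    rw [h4]
  let L0 : ((Fin (n + 2) → ℂ) → ℂ) →ₗ[ℝ] (Pr n → ℝ) := LinearMap.pi fun p =>
    Complex.reLm.comp ((LinearMap.mul ℝ ℂ δ⁻¹).comp
      (ev (e (A p) + e (B p)) - ev (e (A p)) - ev (e (B p))))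
  have hL0 : ∀ g p, L0 g p = (δ⁻¹ * pol g (e (A p)) (e (B p))).re := fun g p => rfl
  let L : spanR φ →ₗ[ℝ] (Pr n → ℝ) := L0.comp (spanR φ).subtype
  have hsingle : ∀ p q : Pr n, L0 (prd δ (A p) 0 (B p) 1) q = if p = q then 1 else 0 := by
    intro p q
    rw [hL0]
    have e0 : pol (prd δ (A p) 0 (B p) 1) (e (A q)) (e (B q)) =
        δ * (e (A q) (A p) * e (B q) (B p) + e (B q) (A p) * e (A q) (B p)) := by
      unfold pol prd
      simp only [Pi.add_apply]
      rw [e_apply_ne (Ne.symm (hA0 q)), e_apply_ne (Ne.symm (hB0 q)), e_apply_ne (Ne.symm (hA1 q)),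
        e_apply_ne (Ne.symm (hB1 q))]
      by_cases h1 : A p = A q
      · have h2 : e (B q) (A p) = 0 := e_apply_ne (by
          intro h; have := congrArg Fin.val h; have h5 := hAB q; rw [h1] at this; omega)
        rw [h2]
        by_cases h3 : B p = B q
        · have h4 : e (A q) (B p) = 0 := e_apply_ne (by
            intro h; have := congrArg Fin.val h; have h5 := hAB q; rw [h3] at this; omega)
          rw [h4]; ring
        · have h4 : e (B q) (B p) = 0 := e_apply_ne h3
          by_cases h5 : B p = A q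
          · exfalso
            have h6 := hAB p
            rw [h1, h5] at h6; omega
          · have h7 : e (A q) (B p) = 0 := e_apply_ne h5
            rw [h4, h7]; ring
      · have h2 : e (A q) (A p) = 0 := e_apply_ne h1
        rw [h2]
        by_cases h3 : A p = B q
        · by_cases h5 : B p = B q
          · exfalso
            have h6 := hAB p
            rw [h3, h5] at h6; omega
          · have h7 : e (B q) (B p) = 0 := e_apply_ne h5
            rw [h7]; ring
        · have h7 : e (B q) (A p) = 0 := e_apply_ne h3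
          rw [h7]; ring
    rw [e0, ← mul_assoc, inv_mul_cancel₀ hδ, one_mul]
    by_cases hpq : p = q
    · subst hpq
      rw [if_pos rfl, e_apply_self, e_apply_self]
      have h4 : e (A p) (B p) = 0 := e_apply_ne (by
        intro h; have := congrArg Fin.val h; have h5 := hAB p; omega)
      rw [h4]; simp
    · rw [if_neg hpq]
      have h1 : e (A q) (A p) * e (B q) (B p) = 0 := by
        by_cases h1 : A p = A q
        · by_cases h3 : B p = B q
          · exact absurd (hinj p q h1 h3) hpq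
          · rw [e_apply_ne h3, mul_zero]
        · rw [e_apply_ne h1, zero_mul]
      have h2 : e (B q) (A p) * e (A q) (B p) = 0 := by
        by_cases h1 : A p = B q
        · by_cases h3 : B p = A q
          · exfalso
            have h6 := hAB p
            have h7 := hAB q
            rw [h1, h3] at h6; omega
          · rw [e_apply_ne h3, mul_zero]
        · rw [e_apply_ne h1, zero_mul]
      rw [h1, h2]; simp
  have hmem : ∀ p : Pr n, prd δ (A p) 0 (B p) 1 ∈ spanR φ := by
    intro p
    apply prd_mem hP hnd hf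
    simp only [List.nodup_cons, List.mem_cons, List.not_mem_nil, not_or]
    have h1 : ¬ A p = B p := fun h => by
      have := congrArg Fin.val h; have h5 := hAB p; omega
    have h2 : ¬ (0 : Fin (n + 2)) = B p := fun h => hB0 p h.symm
    have h3 : ¬ (0 : Fin (n + 2)) = 1 := by
      intro h; have := congrArg Fin.val h; simp at this
    exact ⟨⟨hA0 p, h1, hA1 p, not_false⟩, ⟨h2, h3, not_false⟩, ⟨hB1 p, not_false⟩, not_false, List.nodup_nil⟩
  have hrange : LinearMap.range L = ⊤ := by
    rw [eq_top_iff]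
    intro w _
    refine ⟨∑ p, w p • ⟨prd δ (A p) 0 (B p) 1, hmem p⟩, ?_⟩
    rw [map_sum]
    funext q
    rw [Finset.sum_apply, Finset.sum_eq_single q]
    · rw [map_smul, Pi.smul_apply]
      show w q • L0 (prd δ (A q) 0 (B q) 1) q = w q
      rw [hsingle, if_pos rfl, smul_eq_mul, mul_one]
    · intro p _ hpq
      rw [map_smul, Pi.smul_apply]
      show w p • L0 (prd δ (A p) 0 (B p) 1) q = 0
      rw [hsingle, if_neg hpq, smul_zero]
    · intro h; exact absurd (Finset.mem_univ _) h
  have hker : LinearMap.ker L ≠ ⊥ := by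
    intro hbot
    have hnd1 := hnd
    simp only [List.nodup_cons, List.mem_cons, List.not_mem_nil, not_or] at hnd1
    obtain ⟨⟨n1, n2, n3, -⟩, ⟨n4, n5, -⟩, ⟨n6, -⟩, -⟩ := hnd1
    have hwm : prd δ 0 1 i2 i3 ∈ spanR φ := prd_mem hP hnd hf hnd
    have hk : (⟨prd δ 0 1 i2 i3, hwm⟩ : spanR φ) ∈ LinearMap.ker L := by
      rw [LinearMap.mem_ker]
      funext q
      show L0 (prd δ 0 1 i2 i3) q = 0
      rw [hL0]
      have : pol (prd δ 0 1 i2 i3) (e (A q)) (e (B q)) = 0 := by
        unfold pol prd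
        simp only [Pi.add_apply]
        rw [e_apply_ne (Ne.symm (hA0 q)), e_apply_ne (Ne.symm (hB0 q)),
          e_apply_ne (Ne.symm (hA1 q)), e_apply_ne (Ne.symm (hB1 q))]
        ring
      rw [this, mul_zero, Complex.zero_re]
    rw [hbot, Submodule.mem_bot] at hk
    have h1 := congrFun (congrArg Subtype.val hk) (e 0 + e i2)
    change prd δ 0 1 i2 i3 (e 0 + e i2) = 0 at h1
    unfold prd at h1
    simp only [Pi.add_apply] at h1
    rw [e_apply_self, e_apply_self, e_apply_ne n2, e_apply_ne (Ne.symm n1), e_apply_ne n4,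
      e_apply_ne (Ne.symm n2), e_apply_ne (Ne.symm n3), e_apply_ne (Ne.symm n6)] at h1
    apply hδ
    simpa using h1
  have h1 := LinearMap.finrank_range_add_finrank_ker L
  rw [hrange, finrank_top, Module.finrank_fintype_fun_eq_card] at h1
  have h2 : 0 < Module.finrank ℝ (LinearMap.ker L) :=
    Nat.pos_of_ne_zero fun h => hker (Submodule.finrank_eq_zero.mp h)
  have h3 := card_pr n hn
  omega

theorem lower {m r : ℕ} (hm : 8 ≤ m) {φ : Fin r → QuadraticForm ℂ (Fin m → ℂ)}
    (hP : PermInvariant φ) (hno : NoRealValue φ) : 2 * m ≤ r := by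
  obtain ⟨n, rfl⟩ : ∃ n, m = n + 2 := ⟨m - 2, by omega⟩
  refine le_trans ?_ (finrank_le φ)
  have hnd : [(0 : Fin (n + 2)), 1, ⟨2, by omega⟩, ⟨3, by omega⟩].Nodup := by
    simp [Fin.ext_iff]
  by_cases h : ∀ f ∈ spanR φ, pol f (e 0 - e 1) (e ⟨2, by omega⟩ - e ⟨3, by omega⟩) = 0
  · exact case_one hP hno hnd h
  · push Not at h
    obtain ⟨f, hf, hδ⟩ := h
    exact case_two (by omega) hP hnd hf hδ

/-- the examples `z_i ^ 2`, `i z_i ^ 2` -/
noncomputable def exPerm (m : ℕ) : Fin (m * 2) → QuadraticForm ℂ (Fin m → ℂ) := fun j =>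
  (if (finProdFinEquiv.symm j).2 = 0 then (1 : ℂ) else Complex.I) •
    QuadraticMap.linMulLin (LinearMap.proj (finProdFinEquiv.symm j).1)
      (LinearMap.proj (finProdFinEquiv.symm j).1)

theorem exPerm_apply (m : ℕ) (i : Fin m) (t : Fin 2) (z : Fin m → ℂ) :
    exPerm m (finProdFinEquiv (i, t)) z = (if t = 0 then (1 : ℂ) else Complex.I) * (z i * z i) := by
  unfold exPerm
  rw [Equiv.symm_apply_apply]
  rfl

theorem exPerm_inv (m : ℕ) : PermInvariant (exPerm m) := by
  intro σ j
  obtain ⟨⟨i, t⟩, rfl⟩ := finProdFinEquiv.surjective j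
  apply single_coeff (exPerm m) (finProdFinEquiv (σ i, t)) 1
  intro z
  rw [exPerm_apply, exPerm_apply]
  unfold permute
  simp

theorem exPerm_no (m : ℕ) : NoRealValue (exPerm m) := by
  intro z hz
  obtain ⟨i, hi⟩ := Function.ne_iff.mp hz
  by_contra hcon
  push Not at hcon
  have h0 := hcon (finProdFinEquiv (i, 0))
  have h1 := hcon (finProdFinEquiv (i, 1))
  rw [exPerm_apply, if_pos rfl, one_mul] at h0
  rw [exPerm_apply, if_neg (by decide), Complex.mul_im, Complex.I_re, Complex.I_im, zero_mul,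
    zero_add, one_mul] at h1
  have h2 : z i * z i = 0 := Complex.ext h1 h0
  exact hi (mul_self_eq_zero.mp h2)

theorem main (m r : ℕ) (hm : 8 ≤ m) :
    (∃ φ : Fin r → QuadraticForm ℂ (Fin m → ℂ), PermInvariant φ ∧ NoRealValue φ) ↔ 2 * m ≤ r := by
  constructor
  · rintro ⟨φ, hP, hno⟩
    exact lower hm hP hno
  · intro h
    have hr : m * 2 ≤ r := by omega
    exact ⟨pad (exPerm m) r, fun σ => pad_inv _ hr _ (exPerm_inv m σ), pad_no _ hr (exPerm_no m)⟩

end Pool.Agent.Lib.MP_7fdaab_ag.Perm
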