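import Pool.Agent.Lib.MP_7fdaab_ag.PermD

/-!
The exact count in the second case: the bound for all `m ≥ 5`.
-/

namespace Pool.Agent.Lib.MP_7fdaab_ag.Perm

open Pool.Agent.Lib.MP_7fdaab_ag.Heis

/-- the polar form as a linear map of the function -/
noncomputable def polL {ι : Type} (x y : ι → ℂ) : ((ι → ℂ) → ℂ) →ₗ[ℝ] ℂ :=
  ev (x + y) - ev x - ev y

theorem polL_apply {ι : Type} (x y : ι → ℂ) (f : (ι → ℂ) → ℂ) : polL x y f = pol f x y := rfl

/-- the smaller index of a pair -/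
def pA {n : ℕ} (p : Pr n) : Fin (n + 2) :=
  ⟨p.2.val + 2, by have := p.1.2; have := p.2.2; omega⟩

/-- the larger index of a pair -/
def pB {n : ℕ} (p : Pr n) : Fin (n + 2) := ⟨p.1.val + 2, by have := p.1.2; omega⟩

theorem pA_val {n : ℕ} (p : Pr n) : (pA p).val = p.2.val + 2 := rfl

theorem pB_val {n : ℕ} (p : Pr n) : (pB p).val = p.1.val + 2 := rfl

theorem pr_ext {n : ℕ} {p q : Pr n} (h1 : pA p = pA q) (h2 : pB p = pB q) : p = q := by
  obtain ⟨j, i⟩ := p
  obtain ⟨j', i'⟩ := q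
  have h3 : j = j' := by
    have := congrArg Fin.val h2
    simp only [pB_val] at this
    exact Fin.ext (by omega)
  subst h3
  have h4 : i = i' := by
    have := congrArg Fin.val h1
    simp only [pA_val] at this
    exact Fin.ext (by omega)
  rw [h4]

/-- the value of a unit vector -/
theorem e_eq {m : ℕ} (i j : Fin m) : e i j = if j.val = i.val then 1 else 0 := by
  by_cases h : j = i
  · subst h; rw [e_apply_self, if_pos rfl]
  · rw [e_apply_ne h, if_neg (fun h' => h (Fin.ext h'))]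

theorem val_zero {n : ℕ} : ((0 : Fin (n + 2)) : ℕ) = 0 := rfl

theorem val_one {n : ℕ} : ((1 : Fin (n + 2)) : ℕ) = 1 := rfl

theorem pol_pair {n : ℕ} (δ : ℂ) (p q : Pr n) :
    pol (prd δ (pA p) 0 (pB p) 1) (e (pA q)) (e (pB q)) = if p = q then δ else 0 := by
  have hp := p.2.2
  have hq := q.2.2
  unfold pol prd
  simp only [Pi.add_apply, e_eq, val_zero, val_one, pA_val, pB_val]
  have n1 : ¬ (0 = q.2.val + 2) := by omega
  have n2 : ¬ (1 = q.2.val + 2) := by omega
  have n3 : ¬ (0 = q.1.val + 2) := by omega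
  have n4 : ¬ (1 = q.1.val + 2) := by omega
  rw [if_neg n1, if_neg n2, if_neg n3, if_neg n4]
  by_cases hpq : p = q
  · subst hpq
    rw [if_pos rfl, if_pos rfl, if_pos rfl, if_neg (by omega), if_neg (by omega)]
    ring
  · rw [if_neg hpq]
    by_cases h1 : p.2.val + 2 = q.2.val + 2
    · by_cases h2 : p.1.val + 2 = q.1.val + 2
      · exfalso
        exact hpq (pr_ext (Fin.ext h1) (Fin.ext h2))
      · rw [if_pos h1, if_neg (by omega : ¬ p.2.val + 2 = q.1.val + 2), if_neg h2]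
        by_cases h3 : p.1.val + 2 = q.2.val + 2
        · exfalso; omega
        · rw [if_neg h3]; ring
    · rw [if_neg h1]
      by_cases h2 : p.2.val + 2 = q.1.val + 2
      · rw [if_pos h2, if_neg (by omega : ¬ p.1.val + 2 = q.1.val + 2),
          if_neg (by omega : ¬ p.1.val + 2 = q.2.val + 2)]
        ring
      · rw [if_neg h2]; ring

/-- the index `k + 3` -/
def pK {n : ℕ} (k : Fin (n - 1)) : Fin (n + 2) := ⟨k.val + 3, by have := k.2; omega⟩

/-- the index `2` -/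
def p2 {n : ℕ} (hn : 1 ≤ n) : Fin (n + 2) := ⟨2, by omega⟩

theorem pol_w_pair {n : ℕ} (hn : 1 ≤ n) (δ : ℂ) (k : Fin (n - 1)) (q : Pr n) :
    pol (prd δ 0 1 (p2 hn) (pK k)) (e (pA q)) (e (pB q)) = 0 := by
  unfold pol prd
  simp only [Pi.add_apply, e_eq, val_zero, val_one, pA_val, pB_val]
  rw [if_neg (by omega : ¬ (0 = q.2.val + 2)), if_neg (by omega : ¬ (1 = q.2.val + 2)),
    if_neg (by omega : ¬ (0 = q.1.val + 2)), if_neg (by omega : ¬ (1 = q.1.val + 2))]
  ring

theorem pol_w_k {n : ℕ} (hn : 1 ≤ n) (δ : ℂ) (k k' : Fin (n - 1)) :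
    pol (prd δ 0 1 (p2 hn) (pK k)) (e 0) (e (pK k')) = if k = k' then -δ else 0 := by
  have v2 : (p2 hn).val = 2 := rfl
  have vk : (pK k).val = k.val + 3 := rfl
  have vk' : (pK k').val = k'.val + 3 := rfl
  have ne : ∀ {i j : Fin (n + 2)}, j.val ≠ i.val → e i j = 0 := fun h =>
    e_apply_ne fun h' => h (congrArg Fin.val h')
  have a1 : e (0 : Fin (n + 2)) 0 = 1 := e_apply_self 0
  have a2 : e (0 : Fin (n + 2)) 1 = 0 := ne (by rw [val_zero, val_one]; omega)
  have a3 : e (0 : Fin (n + 2)) (p2 hn) = 0 := ne (by rw [val_zero, v2]; omega)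
  have a4 : e (0 : Fin (n + 2)) (pK k) = 0 := ne (by rw [val_zero, vk]; omega)
  have a5 : e (pK k') (0 : Fin (n + 2)) = 0 := ne (by rw [val_zero, vk']; omega)
  have a6 : e (pK k') (1 : Fin (n + 2)) = 0 := ne (by rw [val_one, vk']; omega)
  have a7 : e (pK k') (p2 hn) = 0 := ne (by rw [v2, vk']; omega)
  unfold pol prd
  simp only [Pi.add_apply]
  rw [a1, a2, a3, a4, a5, a6, a7]
  by_cases h : k = k'
  · subst h
    rw [if_pos rfl, e_apply_self]; ring
  · rw [if_neg h, ne (by rw [vk, vk']; intro h'; exact h (Fin.ext (by omega)))]; ring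

/-- the general count -/
theorem count {n r : ℕ} (hn : 1 ≤ n) {φ : Fin r → QuadraticForm ℂ (Fin (n + 2) → ℂ)}
    {U W : Type} [AddCommGroup U] [Module ℝ U] [FiniteDimensional ℝ U]
    [AddCommGroup W] [Module ℝ W] [FiniteDimensional ℝ W]
    (Θ : ((Fin (n + 2) → ℂ) → ℂ) →ₗ[ℝ] U) (hΘ : (spanR φ).map Θ = ⊤)
    (ι : W → ℂ) (π : ℂ →ₗ[ℝ] W) (hπ : ∀ w, π (ι w) = w)
    (hΘ0 : ∀ w (p q k l : Fin (n + 2)), [p, q, k, l].Nodup → Θ (prd (ι w) p q k l) = 0)
    (hmem : ∀ w (p q k l : Fin (n + 2)), [p, q, k, l].Nodup → prd (ι w) p q k l ∈ spanR φ) :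
    Module.finrank ℝ U + (Fintype.card (Pr n) + (n - 1)) * Module.finrank ℝ W ≤
      Module.finrank ℝ (spanR φ) := by
  classical
  have nd1 : ∀ p : Pr n, [pA p, 0, pB p, 1].Nodup := by
    intro p
    have := p.2.2
    simp only [List.nodup_cons, List.mem_cons, List.not_mem_nil, not_or, Fin.ext_iff, pA_val,
      pB_val, val_zero, val_one]
    refine ⟨⟨?_, ?_, ?_, not_false⟩, ⟨?_, ?_, not_false⟩, ⟨?_, not_false⟩, not_false, List.nodup_nil⟩ <;> omega
  have nd2 : ∀ k : Fin (n - 1), [0, 1, p2 hn, pK k].Nodup := by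
    intro k
    have h2 : (p2 hn).val = 2 := rfl
    have hk : (pK k).val = k.val + 3 := rfl
    simp only [List.nodup_cons, List.mem_cons, List.not_mem_nil, not_or, Fin.ext_iff, h2, hk,
      val_zero, val_one]
    refine ⟨⟨?_, ?_, ?_, not_false⟩, ⟨?_, ?_, not_false⟩, ⟨?_, not_false⟩, not_false, List.nodup_nil⟩ <;> omega
  let Lm : ((Fin (n + 2) → ℂ) → ℂ) →ₗ[ℝ] (Pr n → W) := LinearMap.pi fun p =>
    π.comp (polL (e (pA p)) (e (pB p)))
  let Mm : ((Fin (n + 2) → ℂ) → ℂ) →ₗ[ℝ] (Fin (n - 1) → W) := LinearMap.pi fun k =>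
    - (π.comp (polL (e 0) (e (pK k))))
  let Ψ : ((Fin (n + 2) → ℂ) → ℂ) →ₗ[ℝ] U × (Pr n → W) × (Fin (n - 1) → W) :=
    Θ.prod (Lm.prod Mm)
  have hL1 : ∀ w p q, Lm (prd (ι w) (pA p) 0 (pB p) 1) q = if p = q then w else 0 := by
    intro w p q
    show π (pol (prd (ι w) (pA p) 0 (pB p) 1) (e (pA q)) (e (pB q))) = _
    rw [pol_pair]
    by_cases h : p = q
    · rw [if_pos h, if_pos h, hπ]
    · rw [if_neg h, if_neg h, map_zero]
  have hL2 : ∀ w k q, Lm (prd (ι w) 0 1 (p2 hn) (pK k)) q = 0 := by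
    intro w k q
    show π (pol (prd (ι w) 0 1 (p2 hn) (pK k)) (e (pA q)) (e (pB q))) = _
    rw [pol_w_pair, map_zero]
  have hM2 : ∀ w k k', Mm (prd (ι w) 0 1 (p2 hn) (pK k)) k' = if k = k' then w else 0 := by
    intro w k k'
    show - (π (pol (prd (ι w) 0 1 (p2 hn) (pK k)) (e 0) (e (pK k')))) = _
    rw [pol_w_k]
    by_cases h : k = k'
    · rw [if_pos h, if_pos h, map_neg, neg_neg, hπ]
    · rw [if_neg h, if_neg h, map_zero, neg_zero]
  have htop : (spanR φ).map Ψ = ⊤ := by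
    rw [eq_top_iff]
    rintro ⟨u, l, μ⟩ -
    obtain ⟨f0, hf0, hf0u⟩ : u ∈ (spanR φ).map Θ := by rw [hΘ]; trivial
    set g1 : (Fin (n + 2) → ℂ) → ℂ := ∑ p, prd (ι (l p - Lm f0 p)) (pA p) 0 (pB p) 1 with hg1
    have hg1m : g1 ∈ spanR φ := Submodule.sum_mem _ fun p _ => hmem _ _ _ _ _ (nd1 p)
    have hg1Θ : Θ g1 = 0 := by
      rw [hg1, map_sum]
      exact Finset.sum_eq_zero fun p _ => hΘ0 _ _ _ _ _ (nd1 p)
    have hg1L : ∀ q, Lm g1 q = l q - Lm f0 q := by
      intro q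
      rw [hg1, map_sum, Finset.sum_apply, Finset.sum_eq_single q]
      · rw [hL1, if_pos rfl]
      · intro p _ hp
        rw [hL1, if_neg hp]
      · intro h; exact absurd (Finset.mem_univ _) h
    set g2 : (Fin (n + 2) → ℂ) → ℂ := ∑ k, prd (ι (μ k - Mm (f0 + g1) k)) 0 1 (p2 hn) (pK k) with hg2
    have hg2m : g2 ∈ spanR φ := Submodule.sum_mem _ fun k _ => hmem _ _ _ _ _ (nd2 k)
    have hg2Θ : Θ g2 = 0 := by
      rw [hg2, map_sum]
      exact Finset.sum_eq_zero fun k _ => hΘ0 _ _ _ _ _ (nd2 k)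
    have hg2L : ∀ q, Lm g2 q = 0 := by
      intro q
      rw [hg2, map_sum, Finset.sum_apply]
      exact Finset.sum_eq_zero fun k _ => hL2 _ _ _
    have hg2M : ∀ k, Mm g2 k = μ k - Mm (f0 + g1) k := by
      intro k
      rw [hg2, map_sum, Finset.sum_apply, Finset.sum_eq_single k]
      · rw [hM2, if_pos rfl]
      · intro p _ hp
        rw [hM2, if_neg hp]
      · intro h; exact absurd (Finset.mem_univ _) h
    refine ⟨f0 + g1 + g2, Submodule.add_mem _ (Submodule.add_mem _ hf0 hg1m) hg2m, ?_⟩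
    apply Prod.ext
    · show Θ (f0 + g1 + g2) = u
      rw [map_add, map_add, hf0u, hg1Θ, hg2Θ, add_zero, add_zero]
    · apply Prod.ext
      · show Lm (f0 + g1 + g2) = l
        funext q
        rw [map_add, map_add, Pi.add_apply, Pi.add_apply, hg1L, hg2L]
        abel
      · show Mm (f0 + g1 + g2) = μ
        funext k
        rw [map_add, Pi.add_apply, hg2M]
        abel
  have h1 : Module.finrank ℝ (U × (Pr n → W) × (Fin (n - 1) → W)) =
      Module.finrank ℝ U + (Fintype.card (Pr n) + (n - 1)) * Module.finrank ℝ W := by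
    rw [Module.finrank_prod, Module.finrank_prod, Module.finrank_pi_fintype,
      Module.finrank_pi_fintype]
    simp only [Finset.sum_const, Finset.card_univ, smul_eq_mul, Fintype.card_fin]
    ring
  rw [← h1, ← finrank_top ℝ (U × (Pr n → W) × (Fin (n - 1) → W)), ← htop]
  exact Submodule.finrank_map_le Ψ (spanR φ)

theorem card_pr' (n : ℕ) : Fintype.card (Pr n) * 2 = n * (n - 1) := by
  have h : Fintype.card (Pr n) = ∑ i ∈ Finset.range n, i := by
    rw [Fintype.card_sigma, ← Fin.sum_univ_eq_sum_range (fun i => i) n]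
    apply Finset.sum_congr rfl
    intro j _
    exact Fintype.card_fin _
  rw [h]
  exact Finset.sum_range_id_mul_two n

end Pool.Agent.Lib.MP_7fdaab_ag.Perm
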