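import Pool.Agent.Lib.MP_7fdaab_ag.PermE

/-!
The bound `2 m ≤ r` for all `m ≥ 5`.
-/

namespace Pool.Agent.Lib.MP_7fdaab_ag.Perm

open Pool.Agent.Lib.MP_7fdaab_ag.Heis

theorem exists_form {ι : Type} {r : ℕ} (φ : Fin r → QuadraticForm ℂ (ι → ℂ))
    (f : (ι → ℂ) → ℂ) (hf : f ∈ spanR φ) : ∃ Q : QuadraticForm ℂ (ι → ℂ), f = fun z => Q z := by
  unfold spanR at hf
  induction hf using Submodule.span_induction with
  | mem f h =>
    obtain ⟨i, rfl⟩ := h
    exact ⟨φ i, rfl⟩
  | zero => exact ⟨0, rfl⟩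
  | add f g _ _ h1 h2 =>
    obtain ⟨Q1, h1⟩ := h1
    obtain ⟨Q2, h2⟩ := h2
    refine ⟨Q1 + Q2, ?_⟩
    rw [h1, h2]; rfl
  | smul a f _ h =>
    obtain ⟨Q, h⟩ := h
    refine ⟨(a : ℂ) • Q, ?_⟩
    rw [h]
    funext z
    rw [Pi.smul_apply, Complex.real_smul]; rfl

theorem one_eq (n : ℕ) : one (n + 2) = e 0 + (e 1 + ∑ k : Fin n, e k.succ.succ) := by
  have h : one (n + 2) = ∑ i : Fin (n + 2), e i := by
    funext j
    rw [Finset.sum_apply]
    rw [Finset.sum_eq_single j]
    · rw [e_apply_self]; rfl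
    · intro b _ hb
      exact e_apply_ne (Ne.symm hb)
    · intro h; exact absurd (Finset.mem_univ _) h
  rw [h, Fin.sum_univ_succ, Fin.sum_univ_succ]
  rfl

/-- the sum over the pairs of different indices -/
theorem off_sum {n : ℕ} (Q : QuadraticForm ℂ (Fin (n + 2) → ℂ)) (d q : ℂ)
    (hd : ∀ i, Q (e i) = d) (hq : ∀ i, QuadraticMap.polar Q (e i) (one (n + 2)) = q) :
    ∑ k : Fin n, ∑ l : Fin n, (if l = k then 0 else
      QuadraticMap.polar Q (e 0 - e k.succ.succ) (e 1 - e l.succ.succ)) =
      n * ((n + 1) * QuadraticMap.polar Q (e 0) (e 1) + 2 * d - q) := by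
  classical
  have hself : ∀ i, QuadraticMap.polar Q (e i) (e i) = 2 * d := by
    intro i
    rw [QuadraticMap.polar_self, hd i, two_smul]; ring
  have hone : ∀ i, QuadraticMap.polar Q (e i) (e 0) + (QuadraticMap.polar Q (e i) (e 1) +
      ∑ l : Fin n, QuadraticMap.polar Q (e i) (e l.succ.succ)) = q := by
    intro i
    have h := hq i
    rw [one_eq, QuadraticMap.polar_add_right, QuadraticMap.polar_add_right] at h
    rw [← h]
    congr 2
    have := map_sum (QuadraticMap.polarBilin Q (e i)) (fun l : Fin n => e l.succ.succ) Finset.univ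
    simp only [QuadraticMap.polarBilin_apply_apply] at this
    rw [this]
  set b := QuadraticMap.polar Q (e 0) (e 1) with hb
  have hb' : QuadraticMap.polar Q (e 1) (e 0) = b := QuadraticMap.polar_comm _ _ _
  have s0 : ∑ l : Fin n, QuadraticMap.polar Q (e 0) (e l.succ.succ) = q - 2 * d - b := by
    have := hone 0
    rw [hself] at this
    linear_combination this
  have s1 : ∑ l : Fin n, QuadraticMap.polar Q (e l.succ.succ) (e 1) = q - 2 * d - b := by
    have := hone 1
    rw [hself, hb'] at this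
    have h2 : ∑ l : Fin n, QuadraticMap.polar Q (e l.succ.succ) (e 1) =
        ∑ l : Fin n, QuadraticMap.polar Q (e 1) (e l.succ.succ) :=
      Finset.sum_congr rfl fun l _ => QuadraticMap.polar_comm _ _ _
    rw [h2]
    linear_combination this
  have s0' : ∑ l : Fin n, QuadraticMap.polar Q (e l.succ.succ) (e 0) = q - 2 * d - b := by
    rw [← s0]
    exact Finset.sum_congr rfl fun l _ => QuadraticMap.polar_comm _ _ _
  have ss : ∑ k : Fin n, ∑ l : Fin n, QuadraticMap.polar Q (e k.succ.succ) (e l.succ.succ) =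
      n * q - (q - 2 * d - b) - (q - 2 * d - b) := by
    have h1 : ∀ k : Fin n, ∑ l : Fin n, QuadraticMap.polar Q (e k.succ.succ) (e l.succ.succ) =
        q - QuadraticMap.polar Q (e k.succ.succ) (e 0) - QuadraticMap.polar Q (e k.succ.succ) (e 1) := by
      intro k
      linear_combination hone k.succ.succ
    rw [Finset.sum_congr rfl fun k _ => h1 k, Finset.sum_sub_distrib, Finset.sum_sub_distrib, s0', s1]
    simp
  have ht : ∀ k l : Fin n, QuadraticMap.polar Q (e 0 - e k.succ.succ) (e 1 - e l.succ.succ) =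
      b - QuadraticMap.polar Q (e 0) (e l.succ.succ) - QuadraticMap.polar Q (e k.succ.succ) (e 1)
        + QuadraticMap.polar Q (e k.succ.succ) (e l.succ.succ) := by
    intro k l
    rw [QuadraticMap.polar_sub_left, QuadraticMap.polar_sub_right, QuadraticMap.polar_sub_right]
    ring
  have h3 : ∀ k : Fin n, ∑ l : Fin n, (if l = k then (0 : ℂ) else
      QuadraticMap.polar Q (e 0 - e k.succ.succ) (e 1 - e l.succ.succ)) =
      (n * b - (q - 2 * d - b) - n * QuadraticMap.polar Q (e k.succ.succ) (e 1)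
        + ∑ l : Fin n, QuadraticMap.polar Q (e k.succ.succ) (e l.succ.succ)) -
      (b - QuadraticMap.polar Q (e 0) (e k.succ.succ) - QuadraticMap.polar Q (e k.succ.succ) (e 1)
        + 2 * d) := by
    intro k
    have h4 : ∀ l : Fin n, (if l = k then (0 : ℂ) else
      QuadraticMap.polar Q (e 0 - e k.succ.succ) (e 1 - e l.succ.succ)) =
      QuadraticMap.polar Q (e 0 - e k.succ.succ) (e 1 - e l.succ.succ) -
      (if l = k then QuadraticMap.polar Q (e 0 - e k.succ.succ) (e 1 - e l.succ.succ) else 0) := by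
      intro l
      by_cases h : l = k
      · rw [if_pos h, if_pos h, sub_self]
      · rw [if_neg h, if_neg h, sub_zero]
    rw [Finset.sum_congr rfl fun l _ => h4 l, Finset.sum_sub_distrib, Finset.sum_ite_eq' Finset.univ k,
      if_pos (Finset.mem_univ _), ht k k, hself]
    congr 1
    rw [Finset.sum_congr rfl fun l _ => ht k l, Finset.sum_add_distrib, Finset.sum_sub_distrib,
      Finset.sum_sub_distrib, s0]
    simp
  have hdiag : ∑ k : Fin n, (b - QuadraticMap.polar Q (e 0) (e k.succ.succ) -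
      QuadraticMap.polar Q (e k.succ.succ) (e 1) + 2 * d) =
      n * b - (q - 2 * d - b) - (q - 2 * d - b) + n * (2 * d) := by
    rw [Finset.sum_add_distrib, Finset.sum_sub_distrib, Finset.sum_sub_distrib, s0, s1,
      Finset.sum_const, Finset.sum_const, Finset.card_univ, Fintype.card_fin, nsmul_eq_mul,
      nsmul_eq_mul]
  have hA : ∑ k : Fin n, (n * b - (q - 2 * d - b) - n * QuadraticMap.polar Q (e k.succ.succ) (e 1)
        + ∑ l : Fin n, QuadraticMap.polar Q (e k.succ.succ) (e l.succ.succ)) =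
      n * (n * b - (q - 2 * d - b)) - n * (q - 2 * d - b) +
        (n * q - (q - 2 * d - b) - (q - 2 * d - b)) := by
    rw [Finset.sum_add_distrib, ss, Finset.sum_sub_distrib (fun _ => (n : ℂ) * b - (q - 2 * d - b)),
      ← Finset.mul_sum, s1, Finset.sum_const, Finset.card_univ, Fintype.card_fin, nsmul_eq_mul]
  rw [Finset.sum_congr rfl fun k _ => h3 k, Finset.sum_sub_distrib, hA, hdiag]
  ring

theorem one_one {n : ℕ} (Q : QuadraticForm ℂ (Fin (n + 2) → ℂ)) (q : ℂ)
    (hq : ∀ i, QuadraticMap.polar Q (e i) (one (n + 2)) = q) :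
    2 * Q (one (n + 2)) = (n + 2) * q := by
  have h1 : QuadraticMap.polar Q (one (n + 2)) (one (n + 2)) = 2 * Q (one (n + 2)) := by
    rw [QuadraticMap.polar_self, two_smul]; ring
  rw [← h1]
  have h2 : QuadraticMap.polar Q (one (n + 2)) (one (n + 2)) =
      QuadraticMap.polar Q (e 0 + (e 1 + ∑ k : Fin n, e k.succ.succ)) (one (n + 2)) := by
    rw [← one_eq]
  rw [h2, QuadraticMap.polar_add_left, QuadraticMap.polar_add_left, hq, hq]
  have h3 := map_sum (QuadraticMap.polarBilin Q (one (n + 2))) (fun l : Fin n => e l.succ.succ)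
    Finset.univ
  simp only [QuadraticMap.polarBilin_apply_apply] at h3
  rw [QuadraticMap.polar_comm, h3]
  have h4 : ∀ l : Fin n, QuadraticMap.polar Q (one (n + 2)) (e l.succ.succ) = q := fun l => by
    rw [QuadraticMap.polar_comm, hq]
  rw [Finset.sum_congr rfl fun l _ => h4 l]
  simp only [Finset.sum_const, Finset.card_univ, Fintype.card_fin, nsmul_eq_mul]
  ring

/-- the standard representation occurs -/
theorem no_std {n r : ℕ} (hn : 1 ≤ n) {φ : Fin r → QuadraticForm ℂ (Fin (n + 2) → ℂ)}
    (hno : NoRealValue φ)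
    (hd : ∀ f ∈ spanR φ, ∀ i, f (e i) = f (e 0))
    (hq : ∀ f ∈ spanR φ, ∀ i, pol f (e i) (one (n + 2)) = pol f (e 0) (one (n + 2)))
    (c : ℂ) (hc : c ≠ 0) (h : ∀ f ∈ spanR φ, ∀ i j k l : Fin (n + 2), [i, j, k, l].Nodup →
      (c * pol f (e i - e j) (e k - e l)).im = 0) : False := by
  obtain ⟨s, hs⟩ := IsAlgClosed.exists_pow_nat_eq (1 - ((n : ℂ) + 1) ^ 2) (n := 2) (by norm_num)
  have hn1 : ((n : ℂ) + 1) ≠ 0 := by exact_mod_cast Nat.succ_ne_zero n
  have hn2 : ((n : ℂ) + 2) ≠ 0 := by exact_mod_cast Nat.succ_ne_zero (n + 1)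
  have hn0 : (n : ℂ) ≠ 0 := by exact_mod_cast (by omega : n ≠ 0)
  set κ : ℂ := (1 + s) / (n + 1) with hκ
  have hκ1 : ((n : ℂ) + 1) * κ = 1 + s := by rw [hκ]; field_simp
  have hκ2 : ((n : ℂ) + 1) * (κ ^ 2 + 1) = 2 * κ := by
    have h1 : ((n : ℂ) + 1) * (((n : ℂ) + 1) * (κ ^ 2 + 1) - 2 * κ) = 0 := by
      have : ((n : ℂ) + 1) * (((n : ℂ) + 1) * (κ ^ 2 + 1) - 2 * κ) =
          (((n : ℂ) + 1) * κ) ^ 2 - 2 * (((n : ℂ) + 1) * κ) + ((n : ℂ) + 1) ^ 2 := by ring
      rw [this, hκ1]
      linear_combination hs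
    have := (mul_eq_zero.mp h1).resolve_left hn1
    linear_combination this
  have hκ0 : κ ≠ 0 := by
    intro h0
    rw [h0] at hκ2
    apply hn1
    linear_combination hκ2
  set w : ℂ := -(κ + 1) / (n + 2) with hw
  have hw1 : ((n : ℂ) + 2) * w = -(κ + 1) := by rw [hw]; field_simp
  apply real_vector φ hno (κ • e 0 + e 1 + w • one (n + 2)) ?_ (c / κ) (div_ne_zero hc hκ0)
  · intro f hf
    obtain ⟨Q, hQ⟩ := exists_form φ f hf
    have hd' : ∀ i, Q (e i) = f (e 0) := fun i => by rw [← hd f hf i, hQ]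
    have hq' : ∀ i, QuadraticMap.polar Q (e i) (one (n + 2)) = pol f (e 0) (one (n + 2)) := fun i => by
      rw [← hq f hf i, hQ]; rfl
    set d := f (e 0) with hdd
    set q := pol f (e 0) (one (n + 2)) with hqq
    set b := QuadraticMap.polar Q (e 0) (e 1) with hb
    have hoff := off_sum Q d q hd' hq'
    have hoo := one_one Q q hq'
    -- the value at the vector
    have hx : f (κ • e 0 + e 1 + w • one (n + 2)) =
        κ * κ * d + d + κ * b + w * (κ * q + q) + w * w * Q (one (n + 2)) := by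
      rw [hQ]
      show Q (κ • e 0 + e 1 + w • one (n + 2)) = _
      have e1 := QuadraticMap.map_add Q (κ • e 0 + e 1) (w • one (n + 2))
      have e2 := QuadraticMap.map_add Q (κ • e (0 : Fin (n + 2))) (e 1)
      rw [e1, e2, QuadraticMap.map_smul, QuadraticMap.map_smul, hd', hd',
        QuadraticMap.polar_smul_right, QuadraticMap.polar_add_left, QuadraticMap.polar_smul_left,
        QuadraticMap.polar_smul_left, hq', hq']
      simp only [smul_eq_mul]
      ring
    have hval : ((n : ℂ) + 1) * f (κ • e 0 + e 1 + w • one (n + 2)) =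
        κ * ((n + 1) * b + 2 * d - q) := by
      rw [hx]
      have h5 : w * w * Q (one (n + 2)) = - (κ + 1) * w * q / 2 := by
        have : w * w * Q (one (n + 2)) = w * w * (2 * Q (one (n + 2))) / 2 := by ring
        rw [this, hoo]
        have : w * w * (((n : ℂ) + 2) * q) = (((n : ℂ) + 2) * w) * w * q := by ring
        rw [this, hw1]
      rw [h5]
      have h6 : ((n : ℂ) + 1) * (κ + 1) ^ 2 = 2 * κ * (n + 2) := by
        linear_combination hκ2
      have h7 : ((n : ℂ) + 1) * ((κ + 1) * w) = - (2 * κ) := by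
        have h8 : ((n : ℂ) + 2) * (((n : ℂ) + 1) * ((κ + 1) * w) + 2 * κ) = 0 := by
          have : ((n : ℂ) + 2) * (((n : ℂ) + 1) * ((κ + 1) * w) + 2 * κ) =
              ((n : ℂ) + 1) * (κ + 1) * (((n : ℂ) + 2) * w) + 2 * κ * (n + 2) := by ring
          rw [this, hw1]
          linear_combination - h6
        have := (mul_eq_zero.mp h8).resolve_left hn2
        linear_combination this
      linear_combination d * hκ2 + (q / 2) * h7
    have hreal : (c * ((n + 1) * b + 2 * d - q)).im = 0 := by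
      have h9 : (c * ∑ k : Fin n, ∑ l : Fin n, (if l = k then 0 else
          QuadraticMap.polar Q (e 0 - e k.succ.succ) (e 1 - e l.succ.succ))).im = 0 := by
        rw [Finset.mul_sum, Complex.im_sum]
        apply Finset.sum_eq_zero
        intro k _
        rw [Finset.mul_sum, Complex.im_sum]
        apply Finset.sum_eq_zero
        intro l _
        by_cases hlk : l = k
        · rw [if_pos hlk, mul_zero, Complex.zero_im]
        · rw [if_neg hlk]
          have h10 := h f hf 0 k.succ.succ 1 l.succ.succ (by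
            simp only [List.nodup_cons, List.mem_cons, List.not_mem_nil, not_or, Fin.ext_iff,
              Fin.val_succ, val_zero, val_one]
            have : k.val ≠ l.val := fun h' => hlk (Fin.ext h'.symm)
            refine ⟨⟨?_, ?_, ?_, not_false⟩, ⟨?_, ?_, not_false⟩, ⟨?_, not_false⟩, not_false,
              List.nodup_nil⟩ <;> omega)
          rw [hQ] at h10
          exact h10
      rw [hoff] at h9
      have h11 : c * ((n : ℂ) * ((n + 1) * b + 2 * d - q)) =
          ((n : ℝ) : ℂ) * (c * ((n + 1) * b + 2 * d - q)) := by push_cast; ring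
      rw [h11, Complex.im_ofReal_mul] at h9
      rcases mul_eq_zero.mp h9 with h12 | h12
      · exfalso
        have : (n : ℝ) ≠ 0 := by exact_mod_cast (by omega : n ≠ 0)
        exact this h12
      · exact h12
    have h13 : c / κ * f (κ • e 0 + e 1 + w • one (n + 2)) =
        (((1 : ℝ) / (n + 1) : ℝ) : ℂ) * (c * ((n + 1) * b + 2 * d - q)) := by
      have h14 : f (κ • e 0 + e 1 + w • one (n + 2)) = κ * ((n + 1) * b + 2 * d - q) / (n + 1) := by
        rw [← hval]; field_simp
      rw [h14]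
      push_cast
      field_simp
    rw [h13, Complex.im_ofReal_mul, hreal, mul_zero]
  · intro hx0
    have h1 := congrFun hx0 0
    have h2 := congrFun hx0 (p2 hn)
    simp only [Pi.add_apply, Pi.smul_apply, smul_eq_mul, Pi.zero_apply] at h1 h2
    have v2 : (p2 hn : Fin (n + 2)).val = 2 := rfl
    have a1 : e (1 : Fin (n + 2)) 0 = 0 := e_apply_ne (by
      intro h'; have := congrArg Fin.val h'; rw [val_zero, val_one] at this; omega)
    have a2 : e (0 : Fin (n + 2)) (p2 hn) = 0 := e_apply_ne (by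
      intro h'; have := congrArg Fin.val h'; rw [val_zero, v2] at this; omega)
    have a3 : e (1 : Fin (n + 2)) (p2 hn) = 0 := e_apply_ne (by
      intro h'; have := congrArg Fin.val h'; rw [val_one, v2] at this; omega)
    rw [e_apply_self, a1] at h1
    rw [a2, a3] at h2
    apply hκ0
    have o1 : one (n + 2) 0 = 1 := rfl
    have o2 : one (n + 2) (p2 hn) = 1 := rfl
    rw [o1] at h1
    rw [o2] at h2
    linear_combination h1 - h2

end Pool.Agent.Lib.MP_7fdaab_ag.Perm
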