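import Pool.Agent.Lib.MP_7fdaab_ag.PermF

/-!
The theorem for all `m ≥ 5`.
-/

namespace Pool.Agent.Lib.MP_7fdaab_ag.Perm

open Pool.Agent.Lib.MP_7fdaab_ag.Heis

theorem pol_pull {m : ℕ} (f : (Fin m → ℂ) → ℂ) (σ : Equiv.Perm (Fin m)) (x y : Fin m → ℂ) :
    pol (pull (permute σ) f) x y = pol f (permute σ x) (permute σ y) := by
  unfold pol
  rw [pull_apply, pull_apply, pull_apply, permute_add]

/-- the condition at one place holds at all places -/
theorem im_all {m r : ℕ} {φ : Fin r → QuadraticForm ℂ (Fin m → ℂ)} (hP : PermInvariant φ)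
    {i0 i1 i2 i3 : Fin m} (hnd : [i0, i1, i2, i3].Nodup) (c : ℂ)
    (h : ∀ f ∈ spanR φ, (c * pol f (e i0 - e i1) (e i2 - e i3)).im = 0)
    {f : (Fin m → ℂ) → ℂ} (hf : f ∈ spanR φ) {i j k l : Fin m} (hnd' : [i, j, k, l].Nodup) :
    (c * pol f (e i - e j) (e k - e l)).im = 0 := by
  obtain ⟨σ, hσ⟩ := perm_of_lists _ _ hnd hnd' rfl
  simp only [List.map_cons, List.map_nil, List.cons.injEq, and_true] at hσ
  obtain ⟨h1, h2, h3, h4⟩ := hσ
  have h5 := h _ (pull_mem hP σ⁻¹ hf)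
  rw [pol_pull, permute_sub, permute_sub, permute_e, permute_e, permute_e, permute_e, h1, h2, h3,
    h4] at h5
  exact h5

theorem prd_one {m : ℕ} (δ : ℂ) (p q k l : Fin m) : prd δ p q k l (one m) = 0 := by
  unfold prd one; ring

theorem prd_e {m : ℕ} (δ : ℂ) {p q k l : Fin m} (hnd : [p, q, k, l].Nodup) (i : Fin m) :
    prd δ p q k l (e i) = 0 := by
  simp only [List.nodup_cons, List.mem_cons, List.not_mem_nil, not_or] at hnd
  obtain ⟨⟨n1, n2, n3, -⟩, ⟨n4, n5, -⟩, ⟨n6, -⟩, -⟩ := hnd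
  unfold prd
  by_cases hp : p = i
  · subst hp
    rw [e_apply_ne (Ne.symm n2), e_apply_ne (Ne.symm n3)]; ring
  · by_cases hq : q = i
    · subst hq
      rw [e_apply_ne (Ne.symm n4), e_apply_ne (Ne.symm n5)]; ring
    · rw [e_apply_ne hp, e_apply_ne hq]; ring

theorem prd_pol_one {m : ℕ} (δ : ℂ) {p q k l : Fin m} (hnd : [p, q, k, l].Nodup) (i : Fin m) :
    pol (prd δ p q k l) (e i) (one m) = 0 := by
  have h1 := prd_one δ p q k l
  have h2 := prd_e δ hnd i
  have h3 : prd δ p q k l (e i + one m) = prd δ p q k l (e i) := by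
    unfold prd one
    simp only [Pi.add_apply]
    ring
  unfold pol
  rw [h3, h1, h2]; ring

theorem case_three {n r : ℕ} (hn : 3 ≤ n) {φ : Fin r → QuadraticForm ℂ (Fin (n + 2) → ℂ)}
    (hP : PermInvariant φ) (hno : NoRealValue φ) {i2 i3 : Fin (n + 2)}
    (hnd : [0, 1, i2, i3].Nodup) {f1 : (Fin (n + 2) → ℂ) → ℂ} (hf1 : f1 ∈ spanR φ)
    (hδ : pol f1 (e 0 - e 1) (e i2 - e i3) ≠ 0)
    (η : Fin (n + 2) → (((Fin (n + 2) → ℂ) → ℂ) →ₗ[ℝ] ℂ))
    (hη : ∀ (σ : Equiv.Perm (Fin (n + 2))) i f, η i (pull (permute σ⁻¹) f) = η (σ i) f)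
    (hη0 : ∀ i δ (p q k l : Fin (n + 2)), [p, q, k, l].Nodup → η i (prd δ p q k l) = 0)
    {f : (Fin (n + 2) → ℂ) → ℂ} (hf : f ∈ spanR φ) {j : Fin (n + 2)} (hj : η j f ≠ η 0 f) :
    2 * (n + 2) ≤ Module.finrank ℝ (spanR φ) := by
  classical
  set δ := pol f1 (e 0 - e 1) (e i2 - e i3) with hδd
  set θ := η j f - η 0 f with hθ
  have hθ0 : θ ≠ 0 := sub_ne_zero.mpr hj
  have hj0 : j ≠ 0 := by rintro rfl; exact hj rfl
  have hψ : ∀ i : {i : Fin (n + 2) // i ≠ 0}, ∃ ψ ∈ spanR φ, ψ (one (n + 2)) = 0 ∧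
      ∀ k : {i : Fin (n + 2) // i ≠ 0}, η k.1 ψ = if k = i then θ else 0 := by
    rintro ⟨i, hi⟩
    obtain ⟨σ, hσ⟩ := perm_of_lists [(0 : Fin (n + 2)), i] [0, j]
      (by simpa using Ne.symm hi) (by simpa using Ne.symm hj0) rfl
    simp only [List.map_cons, List.map_nil, List.cons.injEq, and_true] at hσ
    obtain ⟨s0, s1⟩ := hσ
    set f' := pull (permute σ⁻¹) f with hf'
    have hf'm : f' ∈ spanR φ := pull_mem hP σ⁻¹ hf
    set τ : Equiv.Perm (Fin (n + 2)) := Equiv.swap 0 i with hτ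
    refine ⟨f' - pull (permute τ⁻¹) f', Submodule.sub_mem _ hf'm (pull_mem hP τ⁻¹ hf'm), ?_, ?_⟩
    · rw [Pi.sub_apply, pull_apply]
      have : permute τ⁻¹ (one (n + 2)) = one (n + 2) := rfl
      rw [this, sub_self]
    · rintro ⟨k, hk⟩
      show η k (f' - pull (permute τ⁻¹) f') = _
      rw [map_sub, hη τ k f']
      by_cases hki : k = i
      · subst hki
        rw [if_pos rfl, hτ, Equiv.swap_apply_right, hf', hη, hη, s0, s1]
      · rw [if_neg (fun h => hki (congrArg Subtype.val h)), hτ,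
          Equiv.swap_apply_of_ne_of_ne hk hki, sub_self]
  choose ψ hψm hψ1 hψ2 using hψ
  let Θ : ((Fin (n + 2) → ℂ) → ℂ) →ₗ[ℝ] ℂ × ({i : Fin (n + 2) // i ≠ 0} → ℝ) :=
    (ev (one (n + 2))).prod (LinearMap.pi fun i =>
      Complex.reLm.comp ((LinearMap.mul ℝ ℂ θ⁻¹).comp (η i.1)))
  have hΘ2 : ∀ g i, (Θ g).2 i = (θ⁻¹ * η i.1 g).re := fun g i => rfl
  have hΘ1 : ∀ g, (Θ g).1 = g (one (n + 2)) := fun g => rfl
  have htop : (spanR φ).map Θ = ⊤ := by
    rw [eq_top_iff]
    rintro ⟨u, t⟩ -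
    obtain ⟨f0, hf0, hf0u⟩ : u ∈ (spanR φ).map (ev (one (n + 2))) := by
      rw [one_top (by omega) hno]; trivial
    refine ⟨f0 + ∑ i, (t i - (Θ f0).2 i) • ψ i, Submodule.add_mem _ hf0
      (Submodule.sum_mem _ fun i _ => Submodule.smul_mem _ _ (hψm i)), ?_⟩
    apply Prod.ext
    · show ev (one (n + 2)) (f0 + ∑ i, (t i - (Θ f0).2 i) • ψ i) = u
      rw [map_add, map_sum, hf0u]
      have : ∀ i, ev (one (n + 2)) ((t i - (Θ f0).2 i) • ψ i) = 0 := fun i => by
        rw [map_smul, ev_apply, hψ1, smul_zero]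
      rw [Finset.sum_congr rfl (fun i _ => this i)]
      simp
    · funext k
      show (θ⁻¹ * η k.1 (f0 + ∑ i, (t i - (Θ f0).2 i) • ψ i)).re = t k
      rw [map_add, map_sum, Finset.sum_eq_single k]
      · rw [map_smul, hψ2, if_pos rfl, mul_add, Complex.add_re, ← hΘ2, Complex.real_smul,
          mul_left_comm, inv_mul_cancel₀ hθ0, mul_one, Complex.ofReal_re]
        ring
      · intro i _ hik
        rw [map_smul, hψ2, if_neg (Ne.symm hik), smul_zero]
      · intro h; exact absurd (Finset.mem_univ _) h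
  have hsm : ∀ (t : ℝ) (p q k l : Fin (n + 2)), prd ((t : ℂ) * δ) p q k l = t • prd δ p q k l := by
    intro t p q k l
    funext z
    rw [Pi.smul_apply, Complex.real_smul]
    unfold prd
    ring
  have hc := count (by omega : 1 ≤ n) (φ := φ) Θ htop (W := ℝ) (fun t => (t : ℂ) * δ)
    (Complex.reLm.comp (LinearMap.mul ℝ ℂ δ⁻¹)) (by
      intro t
      show (δ⁻¹ * ((t : ℂ) * δ)).re = t
      rw [mul_left_comm, inv_mul_cancel₀ hδ, mul_one, Complex.ofReal_re]) (by
      intro t p q k l hnd'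
      apply Prod.ext
      · rw [hΘ1, prd_one]; rfl
      · funext i
        rw [hΘ2, hη0 _ _ _ _ _ _ hnd', mul_zero]; rfl) (by
      intro t p q k l hnd'
      show prd ((t : ℂ) * δ) p q k l ∈ spanR φ
      rw [hsm]
      exact Submodule.smul_mem _ _ (prd_mem hP hnd hf1 hnd'))
  have h1 : Module.finrank ℝ (ℂ × ({i : Fin (n + 2) // i ≠ 0} → ℝ)) = 2 + (n + 1) := by
    rw [Module.finrank_prod, Module.finrank_pi_fintype]
    simp only [Complex.finrank_real_complex, Module.finrank_self, Finset.sum_const,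
      Finset.card_univ, smul_eq_mul]
    rw [Fintype.card_subtype_compl, Fintype.card_fin, Fintype.card_subtype_eq]
    omega
  rw [h1, Module.finrank_self, mul_one] at hc
  have h2 := card_pr' n
  obtain ⟨k, rfl⟩ : ∃ k, n = k + 3 := ⟨n - 3, by omega⟩
  have h3 : (k + 3) * (k + 3 - 1) = k * k + 5 * k + 6 := by
    have : k + 3 - 1 = k + 2 := by omega
    rw [this]; ring
  rw [h3] at h2
  have : 0 ≤ k * k := Nat.zero_le _
  omega

theorem lower5 {m r : ℕ} (hm : 5 ≤ m) {φ : Fin r → QuadraticForm ℂ (Fin m → ℂ)}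
    (hP : PermInvariant φ) (hno : NoRealValue φ) : 2 * m ≤ r := by
  obtain ⟨n, rfl⟩ : ∃ n, m = n + 2 := ⟨m - 2, by omega⟩
  have hn : 3 ≤ n := by omega
  refine le_trans ?_ (finrank_le φ)
  set i2 : Fin (n + 2) := ⟨2, by omega⟩ with hi2
  set i3 : Fin (n + 2) := ⟨3, by omega⟩ with hi3
  have hnd : [(0 : Fin (n + 2)), 1, i2, i3].Nodup := by
    simp [hi2, hi3, Fin.ext_iff]
  by_cases h : ∀ f ∈ spanR φ, pol f (e 0 - e 1) (e i2 - e i3) = 0
  · exact case_one hP hno hnd h
  · push Not at h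
    obtain ⟨f1, hf1, hδ⟩ := h
    by_cases hW : (spanR φ).map (polL (e 0 - e 1) (e i2 - e i3)) = ⊤
    · have hc := count (by omega : 1 ≤ n) (φ := φ) (ev (one (n + 2))) (one_top (by omega) hno)
        (W := ℂ) (fun w => w) LinearMap.id (fun _ => rfl) (by
          intro w p q k l _
          rw [ev_apply, prd_one]) (by
          intro w p q k l hnd'
          obtain ⟨f, hf, hfw⟩ : w ∈ (spanR φ).map (polL (e 0 - e 1) (e i2 - e i3)) := by
            rw [hW]; trivial
          rw [polL_apply] at hfw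
          rw [← hfw]
          exact prd_mem hP hnd hf hnd')
      rw [Complex.finrank_real_complex] at hc
      have h2 := card_pr' n
      obtain ⟨k, rfl⟩ : ∃ k, n = k + 3 := ⟨n - 3, by omega⟩
      have h3 : (k + 3) * (k + 3 - 1) = k * k + 5 * k + 6 := by
        have : k + 3 - 1 = k + 2 := by omega
        rw [this]; ring
      rw [h3] at h2
      have : 0 ≤ k * k := Nat.zero_le _
      omega
    · obtain ⟨c, hc, hcW⟩ := line_of_ne_top _ hW
      have him : ∀ f ∈ spanR φ, ∀ i j k l : Fin (n + 2), [i, j, k, l].Nodup →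
          (c * pol f (e i - e j) (e k - e l)).im = 0 := fun f hf i j k l hnd' =>
        im_all hP hnd c (fun g hg => hcW _ (Submodule.mem_map_of_mem hg)) hf hnd'
      by_cases hd : ∀ f ∈ spanR φ, ∀ i, f (e i) = f (e 0)
      · by_cases hq : ∀ f ∈ spanR φ, ∀ i, pol f (e i) (one (n + 2)) = pol f (e 0) (one (n + 2))
        · exact (no_std (by omega) hno hd hq c hc him).elim
        · push Not at hq
          obtain ⟨f, hf, j, hj⟩ := hq
          refine case_three hn hP hno hnd hf1 hδ (fun i => polL (e i) (one (n + 2))) ?_ ?_ hf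
            (j := j) hj
          · intro σ i g
            show pol (pull (permute σ⁻¹) g) (e i) (one (n + 2)) = pol g (e (σ i)) (one (n + 2))
            rw [pol_pull, permute_e]
            rfl
          · intro i δ p q k l hnd'
            exact prd_pol_one δ hnd' i
      · push Not at hd
        obtain ⟨f, hf, j, hj⟩ := hd
        refine case_three hn hP hno hnd hf1 hδ (fun i => ev (e i)) ?_ ?_ hf (j := j) hj
        · intro σ i g
          show pull (permute σ⁻¹) g (e i) = g (e (σ i))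
          rw [pull_apply, permute_e]
        · intro i δ p q k l hnd'
          exact prd_e δ hnd' i

theorem main5 (m r : ℕ) (hm : 5 ≤ m) :
    (∃ φ : Fin r → QuadraticForm ℂ (Fin m → ℂ), PermInvariant φ ∧ NoRealValue φ) ↔ 2 * m ≤ r := by
  constructor
  · rintro ⟨φ, hP, hno⟩
    exact lower5 hm hP hno
  · intro h
    have hr : m * 2 ≤ r := by omega
    exact ⟨pad (exPerm m) r, fun σ => pad_inv _ hr _ (exPerm_inv m σ), pad_no _ hr (exPerm_no m)⟩

end Pool.Agent.Lib.MP_7fdaab_ag.Perm
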