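import Pool.Agent.Lib.MP_7fdaab_ag.PermG
import Mathlib.Analysis.InnerProductSpace.PiL2
import Mathlib.Analysis.InnerProductSpace.Projection.Basic
import Mathlib.GroupTheory.SpecificGroups.Alternating
import Mathlib.GroupTheory.GroupAction.MultipleTransitivity

/-!
A group of coordinate permutations which has the same orbits as the full symmetric group on the pairs of unordered pairs
of coordinates stabilizes the same real spaces of quadratic forms as the full symmetric group.
-/

namespace Pool.Agent.Lib.MP_7fdaab_ag.Perm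

open Pool.Agent.Lib.MP_7fdaab_ag.Heis

section Orb

variable {ι : Type} [Fintype ι] [DecidableEq ι]

/-- the action of a permutation of the coordinates as an isometry -/
noncomputable def Ac (g : Equiv.Perm ι) : EuclideanSpace ℝ ι ≃ₗᵢ[ℝ] EuclideanSpace ℝ ι :=
  LinearIsometryEquiv.piLpCongrLeft 2 ℝ ℝ g

omit [DecidableEq ι] in
theorem Ac_apply (g : Equiv.Perm ι) (v : EuclideanSpace ℝ ι) (i : ι) : Ac g v (g i) = v i := by
  simp [Ac, LinearIsometryEquiv.piLpCongrLeft_apply, Equiv.piCongrLeft']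

theorem Ac_single (g : Equiv.Perm ι) (j : ι) :
    Ac g (EuclideanSpace.single j 1) = EuclideanSpace.single (g j) 1 := by
  ext i
  obtain ⟨i, rfl⟩ := g.surjective i
  rw [Ac_apply]
  simp

omit [DecidableEq ι] in
theorem comm_of_stable (U : Submodule ℝ (EuclideanSpace ℝ ι)) (g : Equiv.Perm ι)
    (h1 : ∀ u ∈ U, Ac g u ∈ U) (h2 : ∀ u ∈ U, Ac g⁻¹ u ∈ U) (v : EuclideanSpace ℝ ι) :
    U.starProjection (Ac g v) = Ac g (U.starProjection v) := by
  refine Submodule.eq_starProjection_of_mem_of_inner_eq_zero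
    (h1 _ (Submodule.starProjection_apply_mem U v)) fun w hw => ?_
  have h3 : w = Ac g (Ac g⁻¹ w) := by
    ext i
    obtain ⟨i, rfl⟩ := g.surjective i
    rw [Ac_apply]
    have h4 := Ac_apply g⁻¹ w (g i)
    have h5 : g⁻¹ (g i) = i := g.symm_apply_apply i
    rw [h5] at h4
    exact h4.symm
  rw [h3, ← map_sub, LinearIsometryEquiv.inner_map_map]
  exact Submodule.starProjection_inner_eq_zero v _ (h2 w hw)

theorem stable_of_entries (U : Submodule ℝ (EuclideanSpace ℝ ι)) (s : Equiv.Perm ι)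
    (h : ∀ i j, U.starProjection (EuclideanSpace.single (s j) 1) (s i) =
      U.starProjection (EuclideanSpace.single j 1) i) {u : EuclideanSpace ℝ ι} (hu : u ∈ U) :
    Ac s u ∈ U := by
  have h1 : U.starProjection.toLinearMap ∘ₗ (Ac s).toLinearEquiv.toLinearMap =
      (Ac s).toLinearEquiv.toLinearMap ∘ₗ U.starProjection.toLinearMap := by
    refine (EuclideanSpace.basisFun ι ℝ).toBasis.ext fun j => ?_
    ext i
    obtain ⟨i, rfl⟩ := s.surjective i
    simp only [OrthonormalBasis.coe_toBasis, EuclideanSpace.basisFun_apply, LinearMap.comp_apply]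
    change U.starProjection (Ac s (EuclideanSpace.single j 1)) (s i) =
      Ac s (U.starProjection (EuclideanSpace.single j 1)) (s i)
    rw [Ac_single, Ac_apply]
    exact h i j
  have h2 := LinearMap.congr_fun h1 u
  change U.starProjection (Ac s u) = Ac s (U.starProjection u) at h2
  rw [Submodule.starProjection_eq_self_iff.2 hu] at h2
  exact Submodule.starProjection_eq_self_iff.1 h2

theorem entry_symm (U : Submodule ℝ (EuclideanSpace ℝ ι)) (i j : ι) :
    U.starProjection (EuclideanSpace.single j 1) i = U.starProjection (EuclideanSpace.single i 1) j := by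
  have h := Submodule.inner_starProjection_left_eq_right U (EuclideanSpace.single i (1 : ℝ))
    (EuclideanSpace.single j (1 : ℝ))
  rw [EuclideanSpace.inner_single_left, EuclideanSpace.inner_single_right] at h
  simpa using h.symm

end Orb

/-- a permutation of the coordinates on the pairs of coordinates -/
def lft {m : ℕ} (σ : Equiv.Perm (Fin m)) : Equiv.Perm ((Fin m × Fin m) × Fin 2) :=
  Equiv.prodCongr (Equiv.prodCongr σ σ) (Equiv.refl _)

theorem lft_apply {m : ℕ} (σ : Equiv.Perm (Fin m)) (a b : Fin m) (t : Fin 2) :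
    lft σ ((a, b), t) = ((σ a, σ b), t) := rfl

/-- the real coordinates of a quadratic form -/
noncomputable def Kc {m : ℕ} :
    ((Fin m → ℂ) → ℂ) →ₗ[ℝ] EuclideanSpace ℝ ((Fin m × Fin m) × Fin 2) where
  toFun f := WithLp.toLp 2 fun x =>
    if x.2 = 0 then (pol f (e x.1.1) (e x.1.2)).re else (pol f (e x.1.1) (e x.1.2)).im
  map_add' f g := by
    ext x
    by_cases h : x.2 = 0 <;> simp [h, pol] <;> ring
  map_smul' c f := by
    ext x
    by_cases h : x.2 = 0 <;> simp [h, pol] <;> ring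

theorem Kc_apply {m : ℕ} (f : (Fin m → ℂ) → ℂ) (a b : Fin m) (t : Fin 2) :
    Kc f ((a, b), t) = if t = 0 then (pol f (e a) (e b)).re else (pol f (e a) (e b)).im := rfl

theorem Kc_pull {m : ℕ} (σ : Equiv.Perm (Fin m)) (f : (Fin m → ℂ) → ℂ) :
    Kc (pull (permute σ⁻¹) f) = Ac (lft σ)⁻¹ (Kc f) := by
  ext x
  obtain ⟨⟨a, b⟩, t⟩ := x
  have h1 := Ac_apply (lft σ)⁻¹ (Kc f) (lft σ ((a, b), t))
  have h2 : (lft σ)⁻¹ (lft σ ((a, b), t)) = ((a, b), t) := (lft σ).symm_apply_apply _
  rw [h2] at h1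
  rw [h1, lft_apply, Kc_apply, Kc_apply, pol_pull, permute_e, permute_e]

theorem Kc_inj {m : ℕ} (Q Q' : QuadraticForm ℂ (Fin m → ℂ))
    (h : Kc (fun z => Q z) = Kc (fun z => Q' z)) : (fun z => Q z) = fun z => Q' z := by
  have h1 : ∀ a b : Fin m, QuadraticMap.polar Q (e a) (e b) = QuadraticMap.polar Q' (e a) (e b) := by
    intro a b
    have h2 := congrArg (fun v => v ((a, b), 0)) h
    have h3 := congrArg (fun v => v ((a, b), 1)) h
    simp only [Kc_apply, pol_form] at h2 h3
    exact Complex.ext (by simpa using h2) (by simpa using h3)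
  have h2 : QuadraticMap.polarBilin Q = QuadraticMap.polarBilin Q' := by
    refine (Pi.basisFun ℂ (Fin m)).ext fun a => (Pi.basisFun ℂ (Fin m)).ext fun b => ?_
    rw [Pi.basisFun_apply, Pi.basisFun_apply]
    exact h1 a b
  funext z
  have h3 : QuadraticMap.polar Q z z = QuadraticMap.polar Q' z z := by
    have := congrArg (fun B => B z z) h2
    simpa using this
  rw [QuadraticMap.polar_self, QuadraticMap.polar_self] at h3
  simpa using h3

/-- `G` has the same orbits as the symmetric group on the pairs of unordered pairs. -/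
def PairOrbits {m : ℕ} (G : Subgroup (Equiv.Perm (Fin m))) : Prop :=
  ∀ σ : Equiv.Perm (Fin m), ∀ a b c d : Fin m, ∃ g ∈ G,
    (s(g a, g b) : Sym2 (Fin m)) = s(σ a, σ b) ∧ (s(g c, g d) : Sym2 (Fin m)) = s(σ c, σ d)

theorem perm_of_orbits {m r : ℕ} {G : Subgroup (Equiv.Perm (Fin m))} (hG : PairOrbits G)
    {φ : Fin r → QuadraticForm ℂ (Fin m → ℂ)} (h : ∀ σ ∈ G, SpanInvariant φ (permute σ)) :
    PermInvariant φ := by
  classical
  obtain ⟨U, hU⟩ : ∃ U, U = (spanR φ).map Kc := ⟨_, rfl⟩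
  have stab : ∀ g ∈ G, ∀ u ∈ U, Ac (lft g)⁻¹ u ∈ U := by
    intro g hg u hu
    rw [hU] at hu ⊢
    obtain ⟨f, hf, rfl⟩ := hu
    exact ⟨_, span_stable φ _ (h _ (G.inv_mem hg)) f hf, Kc_pull g f⟩
  have sym : ∀ u ∈ U, ∀ a b : Fin m, ∀ t : Fin 2, u ((a, b), t) = u ((b, a), t) := by
    intro u hu a b t
    rw [hU] at hu
    obtain ⟨f, -, rfl⟩ := hu
    have h1 : pol f (e a) (e b) = pol f (e b) (e a) := by
      unfold pol
      rw [add_comm (e a)]
      ring
    rw [Kc_apply, Kc_apply, h1]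
  obtain ⟨p, hp⟩ : ∃ p : (Fin m × Fin m) × Fin 2 → (Fin m × Fin m) × Fin 2 → ℝ,
      ∀ i j, p i j = U.starProjection (EuclideanSpace.single j 1) i := ⟨_, fun _ _ => rfl⟩
  have ps : ∀ i j, p i j = p j i := fun i j => by rw [hp, hp, entry_symm]
  have p1 : ∀ a b t j, p ((a, b), t) j = p ((b, a), t) j := fun a b t j => by
    rw [hp, hp]
    exact sym _ (Submodule.starProjection_apply_mem U _) a b t
  have p2 : ∀ i a b t, p i ((a, b), t) = p i ((b, a), t) := fun i a b t => by
    rw [ps, p1, ps]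
  have pg : ∀ g ∈ G, ∀ i j, p (lft g i) (lft g j) = p i j := by
    intro g hg i j
    have h1 : ∀ u ∈ U, Ac (lft g) u ∈ U := by
      intro u hu
      have h2 := stab g⁻¹ (G.inv_mem hg) u hu
      have h3 : (lft g⁻¹)⁻¹ = lft g := by
        ext x <;> rfl
      rwa [h3] at h2
    have h4 := comm_of_stable U (lft g) h1 (stab g hg) (EuclideanSpace.single j 1)
    rw [hp, hp, ← Ac_single, h4, Ac_apply]
  have all : ∀ σ : Equiv.Perm (Fin m), ∀ i j, p (lft σ i) (lft σ j) = p i j := by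
    rintro σ ⟨⟨a, b⟩, t⟩ ⟨⟨c, d⟩, s⟩
    obtain ⟨g, hg, h1, h2⟩ := hG σ a b c d
    rw [← pg g hg ((a, b), t) ((c, d), s)]
    simp only [lft_apply]
    rw [Sym2.eq_iff] at h1 h2
    rcases h1 with ⟨h1, h1'⟩ | ⟨h1, h1'⟩ <;> rcases h2 with ⟨h2, h2'⟩ | ⟨h2, h2'⟩
    · rw [h1, h1', h2, h2']
    · rw [h1, h1', h2, h2', p2]
    · rw [h1, h1', h2, h2', p1]
    · rw [h1, h1', h2, h2', p1, p2]
  have fin : ∀ σ : Equiv.Perm (Fin m), ∀ f ∈ spanR φ, pull (permute σ) f ∈ spanR φ := by
    intro σ f hf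
    have h1 : Ac (lft σ⁻¹)⁻¹ (Kc f) ∈ U := by
      have h3 : (lft σ⁻¹)⁻¹ = lft σ := by
        ext x <;> rfl
      rw [h3]
      exact stable_of_entries U (lft σ) (fun i j => by rw [← hp, ← hp]; exact all σ i j)
        (by rw [hU]; exact ⟨f, hf, rfl⟩)
    rw [← Kc_pull, inv_inv, hU] at h1
    obtain ⟨f', hf', h2⟩ := h1
    obtain ⟨Q, rfl⟩ := exists_form φ f hf
    obtain ⟨Q', rfl⟩ := exists_form φ f' hf'
    have h5 : ∃ Q'' : QuadraticForm ℂ (Fin m → ℂ), pull (permute σ) (fun z => Q z) = fun z => Q'' z :=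
      ⟨Q.comp (LinearMap.funLeft ℂ ℂ σ), rfl⟩
    obtain ⟨Q'', h5⟩ := h5
    rw [h5] at h2 ⊢
    rw [← Kc_inj Q' Q'' h2]
    exact hf'
  intro σ j
  have h1 : pull (permute σ) (fn φ j) ∈ spanR φ := fin σ _ (Submodule.subset_span ⟨j, rfl⟩)
  unfold spanR at h1
  obtain ⟨c, hc⟩ := (Submodule.mem_span_range_iff_exists_fun ℝ).1 h1
  refine ⟨c, fun z => ?_⟩
  have h2 := congrFun hc z
  rw [pull_apply] at h2
  simp only [Finset.sum_apply, Pi.smul_apply, Complex.real_smul] at h2
  exact h2.symm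

/-- A fourfold transitive group. -/
theorem pairOrbits_of_four {m : ℕ} (hm : 4 ≤ m) {G : Subgroup (Equiv.Perm (Fin m))}
    (h : MulAction.IsMultiplyPretransitive G (Fin m) 4) : PairOrbits G := by
  classical
  intro σ a b c d
  obtain ⟨T, hT, hT4⟩ := Finset.exists_superset_card_eq (s := ({a, b, c, d} : Finset (Fin m)))
    (n := 4) Finset.card_le_four (by rw [Fintype.card_fin]; exact hm)
  set x : Fin 4 ↪ Fin m := (T.orderEmbOfFin hT4).toEmbedding with hx
  obtain ⟨g, hg⟩ := h.exists_smul_eq x (x.trans σ.toEmbedding)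
  have key : ∀ i ∈ T, (g : Equiv.Perm (Fin m)) i = σ i := by
    intro i hi
    have h1 : i ∈ Set.range (T.orderEmbOfFin hT4) := by
      rw [Finset.range_orderEmbOfFin]; exact hi
    obtain ⟨k, rfl⟩ := h1
    exact DFunLike.congr_fun hg k
  refine ⟨g, g.2, ?_, ?_⟩
  · rw [key a (hT (by simp)), key b (hT (by simp))]
  · rw [key c (hT (by simp)), key d (hT (by simp))]

/-- The alternating group of degree at least five. -/
theorem pairOrbits_alt {m : ℕ} (hm : 5 ≤ m) : PairOrbits (alternatingGroup (Fin m)) := by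
  classical
  intro σ a b c d
  by_cases hs : Equiv.Perm.sign σ = 1
  · exact ⟨σ, Equiv.Perm.mem_alternatingGroup.2 hs, rfl, rfl⟩
  have hs' : Equiv.Perm.sign σ = -1 := (Int.units_eq_one_or _).resolve_left hs
  have mem : ∀ x y : Fin m, x ≠ y → σ * Equiv.swap x y ∈ alternatingGroup (Fin m) := by
    intro x y hxy
    rw [Equiv.Perm.mem_alternatingGroup, Equiv.Perm.sign_mul, Equiv.Perm.sign_swap hxy, hs']
    rfl
  by_cases hc : 1 < (({a, b, c, d} : Finset (Fin m))ᶜ).card
  · obtain ⟨x, hx, y, hy, hxy⟩ := Finset.one_lt_card.1 hc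
    simp only [Finset.mem_compl, Finset.mem_insert, Finset.mem_singleton, not_or] at hx hy
    have hf : ∀ i, x ≠ i → y ≠ i → (σ * Equiv.swap x y) i = σ i := by
      intro i h1 h2
      rw [Equiv.Perm.mul_apply, Equiv.swap_apply_of_ne_of_ne (Ne.symm h1) (Ne.symm h2)]
    exact ⟨_, mem x y hxy, by rw [hf a hx.1 hy.1, hf b hx.2.1 hy.2.1],
      by rw [hf c hx.2.2.1 hy.2.2.1, hf d hx.2.2.2 hy.2.2.2]⟩
  · rw [Finset.card_compl, Fintype.card_fin] at hc
    have key : ∀ x y z : Fin m, ¬ ({a, b, c, d} : Finset (Fin m)) ⊆ {x, y, z} := by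
      intro x y z h
      have h1 := (Finset.card_le_card h).trans Finset.card_le_three
      omega
    have hab : a ≠ b := by rintro rfl; exact key a c d (by simp)
    have hca : c ≠ a := by rintro rfl; exact key c b d (by simp [Finset.insert_subset_iff])
    have hcb : c ≠ b := by rintro rfl; exact key a c d (by simp)
    have hda : d ≠ a := by rintro rfl; exact key d b c (by simp [Finset.insert_subset_iff])
    have hdb : d ≠ b := by rintro rfl; exact key a d c (by simp [Finset.insert_subset_iff])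
    refine ⟨_, mem a b hab, ?_, ?_⟩
    · rw [Equiv.Perm.mul_apply, Equiv.Perm.mul_apply, Equiv.swap_apply_left,
        Equiv.swap_apply_right, Sym2.eq_swap]
    · rw [Equiv.Perm.mul_apply, Equiv.Perm.mul_apply, Equiv.swap_apply_of_ne_of_ne hca hcb,
        Equiv.swap_apply_of_ne_of_ne hda hdb]

theorem PairOrbits.mono {m : ℕ} {G H : Subgroup (Equiv.Perm (Fin m))} (hG : PairOrbits G)
    (h : G ≤ H) : PairOrbits H := by
  intro σ a b c d
  obtain ⟨g, hg, h1⟩ := hG σ a b c d
  exact ⟨g, h hg, h1⟩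

/-- The theorem for all groups with the orbits of the symmetric group on pairs of pairs. -/
theorem mainOrb (m r : ℕ) (hm : 5 ≤ m) (G : Subgroup (Equiv.Perm (Fin m))) (hG : PairOrbits G) :
    (∃ φ : Fin r → QuadraticForm ℂ (Fin m → ℂ), (∀ σ ∈ G, SpanInvariant φ (permute σ)) ∧
      NoRealValue φ) ↔ 2 * m ≤ r := by
  constructor
  · rintro ⟨φ, hP, hno⟩
    exact (main5 m r hm).1 ⟨φ, perm_of_orbits hG hP, hno⟩
  · intro hr
    obtain ⟨φ, hP, hno⟩ := (main5 m r hm).2 hr
    exact ⟨φ, fun σ _ => hP σ, hno⟩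

end Pool.Agent.Lib.MP_7fdaab_ag.Perm
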